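import Mathlib

/-!
# POR (iii), good points (GD), part 1: division by Blaschke factors

`pick0`: Schwarz-Pick at a zero.  `div_bla`: if `|f| ≤ 1` on the unit disc and `f w = 0` then
`f = b_w g` with `|g| ≤ 1`, `b_w z = (z - w) / (1 - conj w z)`.  `fac`: all zeros in the closed
disc of radius `r` are divided out, their number is at most `n` if `r ^ n ≤ |f 0|`.
-/

noncomputable section

namespace Pool.Agent.MP_ae5b4e_an_GD

open Complex Set Filter Topology Metric
open scoped ComplexConjugate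

theorem one_sub_ne {w z : ℂ} (hw : ‖w‖ < 1) (hz : ‖z‖ < 1) : 1 - conj w * z ≠ 0 := by
  intro h
  have h1 : conj w * z = 1 := (sub_eq_zero.1 h).symm
  have h2 : ‖w‖ * ‖z‖ = 1 := by
    have := congrArg norm h1
    rwa [norm_mul, RCLike.norm_conj, norm_one] at this
  nlinarith [norm_nonneg w, norm_nonneg z]

/-- the Blaschke factor -/
def bl (w z : ℂ) : ℂ := (z - w) / (1 - conj w * z)

theorem normSq_bl {w z : ℂ} :
    Complex.normSq (1 - conj w * z) - Complex.normSq (z - w) =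
      (1 - Complex.normSq w) * (1 - Complex.normSq z) := by
  simp only [Complex.normSq_apply, Complex.sub_re, Complex.sub_im, Complex.mul_re, Complex.mul_im,
    Complex.conj_re, Complex.conj_im, Complex.one_re, Complex.one_im]
  ring

theorem norm_bl_lt {w z : ℂ} (hw : ‖w‖ < 1) (hz : ‖z‖ < 1) : ‖bl w z‖ < 1 := by
  have h := normSq_bl (w := w) (z := z)
  have h1 := one_sub_ne hw hz
  rw [bl, norm_div, div_lt_one (norm_pos_iff.2 h1)]
  have h2 : Complex.normSq (z - w) < Complex.normSq (1 - conj w * z) := by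
    have a1 : Complex.normSq w < 1 := by
      rw [Complex.normSq_eq_norm_sq]
      nlinarith [norm_nonneg w]
    have a2 : Complex.normSq z < 1 := by
      rw [Complex.normSq_eq_norm_sq]
      nlinarith [norm_nonneg z]
    have a3 : 0 < (1 - Complex.normSq w) * (1 - Complex.normSq z) := by
      apply mul_pos <;> linarith
    linarith
  rw [Complex.normSq_eq_norm_sq, Complex.normSq_eq_norm_sq] at h2
  exact lt_of_pow_lt_pow_left₀ 2 (norm_nonneg _) h2

/-- Schwarz-Pick at a zero -/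
theorem pick0 {f : ℂ → ℂ} (hf : DifferentiableOn ℂ f (ball 0 1))
    (hb : ∀ z ∈ ball (0 : ℂ) 1, ‖f z‖ ≤ 1) {w z : ℂ} (hw : ‖w‖ < 1) (hz : ‖z‖ < 1)
    (h0 : f w = 0) : ‖f z‖ ≤ ‖bl w z‖ := by
  have hmw : ‖-w‖ < 1 := by rwa [norm_neg]
  have hmap : ∀ u ∈ ball (0 : ℂ) 1, bl (-w) u ∈ ball (0 : ℂ) 1 := by
    intro u hu
    rw [mem_ball_zero_iff] at hu ⊢
    exact norm_bl_lt hmw hu
  have hd : DifferentiableOn ℂ (fun u => f (bl (-w) u)) (ball 0 1) := by
    refine hf.comp ?_ hmap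
    intro u hu
    rw [mem_ball_zero_iff] at hu
    have h1 := one_sub_ne hmw hu
    have h2 : DifferentiableAt ℂ (fun u : ℂ => (u - -w) / (1 - conj (-w) * u)) u := by
      fun_prop (disch := exact h1)
    exact h2.differentiableWithinAt
  have h1 : ‖bl w z‖ < 1 := norm_bl_lt hw hz
  have hzw := one_sub_ne hw hz
  have h3 : 1 - conj w * w ≠ 0 := one_sub_ne hw hw
  have key : bl (-w) (bl w z) = z := by
    have h4 : 1 - conj (-w) * bl w z ≠ 0 := one_sub_ne hmw h1
    rw [bl, div_eq_iff h4, map_neg]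
    have e1 : bl w z * (1 - conj w * z) = z - w := by
      rw [bl, div_mul_cancel₀ _ hzw]
    linear_combination e1
  have h5 := Complex.norm_le_norm_of_mapsTo_ball (R := 1) hd
    (fun u hu => by
      rw [mem_closedBall_zero_iff]
      exact hb _ (hmap u hu)) (by
      show f (bl (-w) 0) = 0
      have : bl (-w) 0 = w := by simp [bl]
      rw [this, h0]) h1
  rwa [key] at h5

/-- division by a Blaschke factor -/
theorem div_bla {f : ℂ → ℂ} (hf : DifferentiableOn ℂ f (ball 0 1))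
    (hb : ∀ z ∈ ball (0 : ℂ) 1, ‖f z‖ ≤ 1) {w : ℂ} (hw : ‖w‖ < 1) (h0 : f w = 0) :
    ∃ g : ℂ → ℂ, DifferentiableOn ℂ g (ball 0 1) ∧ (∀ z ∈ ball (0 : ℂ) 1, ‖g z‖ ≤ 1) ∧
      ∀ z ∈ ball (0 : ℂ) 1, f z = bl w z * g z := by
  have hwb : w ∈ ball (0 : ℂ) 1 := by rwa [mem_ball_zero_iff]
  set g : ℂ → ℂ := fun z => dslope f w z * (1 - conj w * z) with hg
  have hgd : DifferentiableOn ℂ g (ball 0 1) := by
    have h1 : DifferentiableOn ℂ (dslope f w) (ball 0 1) :=
      (Complex.differentiableOn_dslope (isOpen_ball.mem_nhds hwb)).2 hf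
    exact h1.mul (by fun_prop)
  have heq : ∀ z ∈ ball (0 : ℂ) 1, f z = bl w z * g z := by
    intro z hz
    rw [mem_ball_zero_iff] at hz
    have h1 := one_sub_ne hw hz
    rcases eq_or_ne z w with rfl | hne
    · simp [bl, h0]
    · have h2 : z - w ≠ 0 := sub_ne_zero.2 hne
      simp only [hg, bl]
      rw [dslope_of_ne _ hne, slope_def_field, h0, sub_zero]
      have h3 : (z - w) / (1 - conj w * z) * (f z / (z - w) * (1 - conj w * z)) =
        f z * ((z - w) / (z - w)) * ((1 - conj w * z) / (1 - conj w * z)) := by ring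
      rw [h3, div_self h2, div_self h1, mul_one, mul_one]
  have hne : ∀ z ∈ ball (0 : ℂ) 1, z ≠ w → ‖g z‖ ≤ 1 := by
    intro z hz hzw
    have h1 := heq z hz
    have h2 := pick0 hf hb hw (by rwa [mem_ball_zero_iff] at hz) h0
    rw [h1, norm_mul] at h2
    have h3 : bl w z ≠ 0 := by
      rw [mem_ball_zero_iff] at hz
      exact div_ne_zero (sub_ne_zero.2 hzw) (one_sub_ne hw hz)
    have h4 := norm_pos_iff.2 h3
    nlinarith [norm_nonneg (g z)]
  refine ⟨g, hgd, ?_, heq⟩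
  intro z hz
  rcases eq_or_ne z w with rfl | hzw
  · have hc : ContinuousAt g z := (hgd.continuousOn.continuousAt (isOpen_ball.mem_nhds hz))
    have h1 : Tendsto (fun y => ‖g y‖) (𝓝[≠] z) (𝓝 ‖g z‖) :=
      (hc.norm.tendsto).mono_left nhdsWithin_le_nhds
    refine le_of_tendsto h1 ?_
    have h2 : ∀ᶠ y in 𝓝[≠] z, y ∈ ball (0 : ℂ) 1 :=
      mem_nhdsWithin_of_mem_nhds (isOpen_ball.mem_nhds hz)
    filter_upwards [h2, self_mem_nhdsWithin] with y hy hy2
    exact hne y hy hy2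
  · exact hne z hz hzw

/-- all zeros in the closed disc of radius `r` are divided out -/
theorem fac {r : ℝ} (hr0 : 0 < r) (hr : r < 1) : ∀ (n : ℕ) (f : ℂ → ℂ),
    DifferentiableOn ℂ f (ball 0 1) → (∀ z ∈ ball (0 : ℂ) 1, ‖f z‖ ≤ 1) → r ^ n ≤ ‖f 0‖ →
    ∃ (Z : List ℂ) (g : ℂ → ℂ), Z.length ≤ n ∧ (∀ w ∈ Z, ‖w‖ ≤ r) ∧
      DifferentiableOn ℂ g (ball 0 1) ∧ (∀ z ∈ ball (0 : ℂ) 1, ‖g z‖ ≤ 1) ∧
      (∀ z : ℂ, ‖z‖ ≤ r → g z ≠ 0) ∧ ‖f 0‖ ≤ ‖g 0‖ ∧
      ∀ z ∈ ball (0 : ℂ) 1, f z = (Z.map (fun w => bl w z)).prod * g z := by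
  intro n
  induction n with
  | zero =>
    intro f hf hb h0
    have h1 : ‖f 0‖ = 1 := le_antisymm (hb 0 (by simp)) (by simpa using h0)
    have hconst : ∀ z ∈ ball (0 : ℂ) 1, f z = f 0 := by
      intro z hz
      have hmax : IsMaxOn (norm ∘ f) (ball 0 1) 0 := by
        intro y hy
        show ‖f y‖ ≤ ‖f 0‖
        rw [h1]
        exact hb y hy
      exact Complex.eqOn_of_isPreconnected_of_isMaxOn_norm
        (convex_ball (0 : ℂ) 1).isPreconnected isOpen_ball hf (mem_ball_self one_pos) hmax hz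
    refine ⟨[], f, by simp, by simp, hf, hb, ?_, le_rfl, by simp⟩
    intro z hz hfz
    have := hconst z (by rw [mem_ball_zero_iff]; linarith)
    rw [hfz] at this
    rw [← this, norm_zero] at h1
    exact zero_ne_one h1
  | succ n ih =>
    intro f hf hb h0
    by_cases hz : ∃ w : ℂ, ‖w‖ ≤ r ∧ f w = 0
    · obtain ⟨w, hwr, hw0⟩ := hz
      have hw1 : ‖w‖ < 1 := lt_of_le_of_lt hwr hr
      obtain ⟨g, hgd, hgb, hfg⟩ := div_bla hf hb hw1 hw0
      have h1 : ‖f 0‖ = ‖w‖ * ‖g 0‖ := by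
        rw [hfg 0 (by simp), norm_mul]
        simp [bl]
      have h2 : ‖f 0‖ ≤ r * ‖g 0‖ := by
        rw [h1]
        exact mul_le_mul_of_nonneg_right hwr (norm_nonneg _)
      have h3 : r ^ n ≤ ‖g 0‖ := by
        have h4 : r * r ^ n ≤ r * ‖g 0‖ := by
          rw [← pow_succ']
          exact h0.trans h2
        exact le_of_mul_le_mul_left h4 hr0
      obtain ⟨Z, k, hZl, hZr, hkd, hkb, hk0, hkg, hgk⟩ := ih g hgd hgb h3
      refine ⟨w :: Z, k, ?_, ?_, hkd, hkb, hk0, ?_, ?_⟩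
      · simp only [List.length_cons]
        omega
      · intro v hv
        rcases List.mem_cons.1 hv with rfl | hv
        · exact hwr
        · exact hZr v hv
      · calc ‖f 0‖ ≤ r * ‖g 0‖ := h2
          _ ≤ 1 * ‖g 0‖ := by gcongr
          _ = ‖g 0‖ := one_mul _
          _ ≤ ‖k 0‖ := hkg
      · intro z hz
        rw [hfg z hz, hgk z hz, List.map_cons, List.prod_cons]
        ring
    · push Not at hz
      exact ⟨[], f, by simp, by simp, hf, hb, fun z hzr => hz z hzr, le_rfl, by simp⟩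

end Pool.Agent.MP_ae5b4e_an_GD
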