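import Pool.Agent.Lib.MP_ae5b4e_an_GD.Gp

/-!
# POR (iii), good points (GD), part 4: first passage of depth `2 D` on the path under an `I` point

`Gd q M D A`: near every place of the line there is a point of depth in `[D / M, M D]` where
`|q| ≥ exp (-A)`.  `first`: under a point of type `I` with `|X| ≤ κ²` on `(0, a]` the distance to
the line at the last passage of depth `2 D` is at least `(γ / κ) exp (-C1 (1 + A))`.
-/

noncomputable section

namespace Pool.Agent.MP_ae5b4e_an_GD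

open Complex Set Filter Topology Metric MeasureTheory
open Pool.Agent.MP_ae5b4e_an_WB (Hm)
open Pool.Agent.MP_ae5b4e_an_T

/-- good points near every place -/
def Gd (q : ℂ → ℂ) (M D A : ℝ) : Prop :=
  ∀ x : ℝ, ∃ z0 : ℂ, |x - z0.re| ≤ M * D ∧ D / M ≤ -z0.im ∧ -z0.im ≤ M * D ∧
    Real.exp (-A) ≤ ‖q z0‖

theorem first {M : ℝ} (hM : 1 ≤ M) : ∃ C1 : ℝ, 0 < C1 ∧
    ∀ (q : ℂ → ℂ) (C γ v : ℝ) (f : ℂ → ℂ), Sl q C γ v f → ∀ D A κ x a : ℝ,
      8 * M ≤ D → C ≤ (D / (4 * M)) ^ 2 → 0 ≤ A → 0 < κ → Gd q M D A → 0 < a →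
      (∀ s ∈ Ioc 0 a, ‖Xf q γ f ((x : ℂ) - (v + s : ℝ) * I)‖ ≤ κ ^ 2) → IAt v f x →
      -(f ((x : ℂ) - (v + a : ℝ) * I)).im ≤ 2 * D →
      ∃ s ∈ Ioc 0 a, γ / κ * Real.exp (-(C1 * (1 + A))) ≤ s ∧
        -(f ((x : ℂ) - (v + s : ℝ) * I)).im = 2 * D ∧
        ∀ r ∈ Ioo 0 s, 2 * D < -(f ((x : ℂ) - (v + r : ℝ) * I)).im := by
  have hM0 : 0 < M := by linarith
  obtain ⟨C1, hC1, hgp⟩ := gp (M := 2 * M) (by linarith)
  refine ⟨C1, hC1, ?_⟩
  intro q C γ v f hS D A κ x a hD hCD hA hκ hGd ha hX hI hPa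
  have hγ := hS.γ_pos
  have hD0 : 0 < D := by linarith
  have hD1 : 1 ≤ D := by linarith
  set g : ℝ → ℂ := fun s => f ((x : ℂ) - (v + s : ℝ) * I) with hg
  set g' : ℝ → ℂ := fun s => deriv f ((x : ℂ) - (v + s : ℝ) * I) * (-I) with hg'
  have hmem : ∀ s : ℝ, 0 < s → (x : ℂ) - (v + s : ℝ) * I ∈ Hp v := by
    intro s hs
    show ((x : ℂ) - (v + s : ℝ) * I).im < -v
    simp only [sub_im, mul_im, ofReal_re, ofReal_im, I_re, I_im]
    linarith
  have hopen : IsOpen (Hp v) := isOpen_lt Complex.continuous_im continuous_const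
  have hder : ∀ s : ℝ, 0 < s → HasDerivAt g (g' s) s := by
    intro s hs
    have h1 : HasDerivAt f (deriv f ((x : ℂ) - (v + s : ℝ) * I)) ((x : ℂ) - (v + s : ℝ) * I) :=
      (hS.fd.differentiableAt (hopen.mem_nhds (hmem s hs))).hasDerivAt
    have h2 : HasDerivAt (fun s : ℝ => (x : ℂ) - (v + s : ℝ) * I) (-I) s := by
      have h3 : HasDerivAt (fun s : ℝ => ((v + s : ℝ) : ℂ)) 1 s := by
        have := (hasDerivAt_id s).const_add v
        simpa using this.ofReal_comp
      have h4 := (h3.mul_const I).const_sub (x : ℂ)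
      simpa using h4
    exact h1.comp s h2
  set P : ℝ → ℝ := fun s => -(g s).im with hP
  have hPc : ∀ s : ℝ, 0 < s → ContinuousAt P s := by
    intro s hs
    exact (Complex.continuous_im.continuousAt.comp (hder s hs).continuousAt).neg
  have hPI : Tendsto P (𝓝[>] 0) atTop := by
    have h1 : Tendsto (fun s : ℝ => (f ((x : ℂ) - (v + s : ℝ) * I)).im) (𝓝[>] 0) atBot := hI
    exact tendsto_neg_atBot_atTop.comp h1
  -- the set where the depth is at most `2 D`
  set S : Set ℝ := {s | s ∈ Ioc 0 a ∧ P s ≤ 2 * D} with hSdef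
  have hev : ∀ᶠ s in 𝓝[>] (0 : ℝ), 4 * D < P s := hPI.eventually_gt_atTop (4 * D)
  obtain ⟨e, he, hev'⟩ := mem_nhdsGT_iff_exists_Ioo_subset.1 hev
  have he0 : 0 < e := he
  have hSlow : ∀ s ∈ S, e ≤ s := by
    intro s hs
    by_contra hlt
    push Not at hlt
    have h1 : 4 * D < P s := hev' ⟨hs.1.1, hlt⟩
    linarith [hs.2]
  have hScl : IsCompact S := by
    have h1 : S = Icc e a ∩ P ⁻¹' (Iic (2 * D)) := by
      ext s
      constructor
      · intro hs
        exact ⟨⟨hSlow s hs, hs.1.2⟩, hs.2⟩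
      · rintro ⟨h2, h3⟩
        exact ⟨⟨lt_of_lt_of_le he0 h2.1, h2.2⟩, h3⟩
    rw [h1]
    have h2 : ContinuousOn P (Icc e a) :=
      fun s hs => (hPc s (lt_of_lt_of_le he0 hs.1)).continuousWithinAt
    exact isCompact_Icc.of_isClosed_subset (h2.preimage_isClosed_of_isClosed isClosed_Icc
      isClosed_Iic) inter_subset_left
  have hSn : S.Nonempty := ⟨a, ⟨ha, le_rfl⟩, hPa⟩
  obtain ⟨sb, hsb, hleast⟩ := hScl.exists_isLeast hSn
  have hsb0 : 0 < sb := hsb.1.1
  have hmore : ∀ r ∈ Ioo 0 sb, 2 * D < P r := by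
    intro r hr
    by_contra hle
    push Not at hle
    have : r ∈ S := ⟨⟨hr.1, hr.2.le.trans hsb.1.2⟩, hle⟩
    linarith [hleast this, hr.2]
  have hPsb : P sb = 2 * D := by
    refine le_antisymm hsb.2 ?_
    have h1 : Tendsto P (𝓝[<] sb) (𝓝 (P sb)) := (hPc sb hsb0).tendsto.mono_left nhdsWithin_le_nhds
    refine ge_of_tendsto h1 ?_
    filter_upwards [Ioo_mem_nhdsLT hsb0] with r hr
    exact (hmore r hr).le
  -- a point of depth at least `4 D`
  set sa : ℝ := min (e / 2) (sb / 2) with hsa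
  have hsa0 : 0 < sa := lt_min (by linarith) (by linarith)
  have hsae : sa < e := lt_of_le_of_lt (min_le_left _ _) (by linarith)
  have hsab : sa < sb := lt_of_le_of_lt (min_le_right _ _) (by linarith)
  have hPsa : 4 * D < P sa := hev' ⟨hsa0, hsae⟩
  obtain ⟨z0, hz1, hz2, hz3, hz4⟩ := hGd (g sb).re
  have hκγ : 0 < κ / γ := div_pos hκ hγ
  have hMD : D / (2 * (2 * M)) = D / (4 * M) := by congr 1; ring
  have h4M : 2 ≤ D / (4 * M) := by
    rw [le_div_iff₀ (by positivity)]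
    linarith
  have hle2 : D / (2 * M) ≤ D / M := by gcongr; linarith
  have hpos : ∀ t ∈ Icc sa sb, 0 < t := fun t ht => lt_of_lt_of_le hsa0 ht.1
  have hmain := hgp q D A (κ / γ) z0 sa sb sb sa g g' hD1 hA hκγ hS.qd (by
      intro z hz
      rw [hMD] at hz
      have h1 := hS.qb z (h4M.trans hz)
      refine h1.trans ?_
      have h2 : (D / (4 * M)) ^ 2 ≤ z.im ^ 2 := by
        rw [← neg_sq z.im]
        have h3 : 0 ≤ D / (4 * M) := by linarith
        gcongr
      rw [div_le_one (by nlinarith)]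
      linarith) hz4 (hle2.trans hz2) (by nlinarith) (fun t ht => hder t (hpos t ht)) (by
      intro t ht
      rcases eq_or_lt_of_le ht.2 with h | h
      · rw [h]
        have : -(g sb).im = 2 * D := hPsb
        linarith
      · have h1 : 2 * D < -(g t).im := hmore t ⟨hpos t ht, h⟩
        linarith) (by
      intro t ht
      have ht0 := hpos t ht
      have h1 := hX t ⟨ht0, ht.2.trans hsb.1.2⟩
      have h2 : ‖Xf q γ f ((x : ℂ) - (v + t : ℝ) * I)‖ = ‖q (g t)‖ * ‖g' t‖ ^ 2 * γ ^ 2 := by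
        simp only [Xf, hg, hg', norm_mul, norm_pow, norm_neg, norm_I, mul_one, norm_real,
          Real.norm_eq_abs, mul_pow, sq_abs]
        ring
      rw [h2] at h1
      rw [div_pow, le_div_iff₀ (by positivity)]
      exact h1) ⟨hsab.le, le_rfl⟩ ⟨le_rfl, hsab.le⟩ (by
      have : -(g sb).im = 2 * D := hPsb
      rw [this]
      nlinarith) (by
      refine hz1.trans ?_
      nlinarith) (by
      have h1 : -(g sb).im = 2 * D := hPsb
      have h2 : 4 * D < -(g sa).im := hPsa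
      have h3 := Complex.abs_im_le_norm (g sa - g sb)
      rw [← dist_eq_norm, sub_im] at h3
      have h4 := (neg_le_abs ((g sa).im - (g sb).im)).trans h3
      have h5 : D / (2 * M) ≤ D := div_le_self hD0.le (by linarith)
      linarith)
  refine ⟨sb, hsb.1, ?_, hPsb, hmore⟩
  have h1 : Real.exp (-(C1 * (1 + A))) ≤ κ / γ * sb := by
    refine hmain.trans ?_
    gcongr
    linarith
  calc γ / κ * Real.exp (-(C1 * (1 + A))) ≤ γ / κ * (κ / γ * sb) := by gcongr
    _ = sb := by field_simp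

end Pool.Agent.MP_ae5b4e_an_GD
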