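import Pool.Agent.Lib.MP_ae5b4e_an_GD.MM
import Pool.Agent.Lib.MP_ae5b4e_an_T.Defs

/-!
# POR (iii), good points (GD), part 3: connected sets in the half plane, lower bound of travel times

`half_low`: `|f| ≤ 1` on the lower half plane, `|f z0| ≥ exp (-A)`; every connected set of diameter
`≥ ε D` at depth `≥ ε D` and at distance `≤ B D` contains a point where `|f| ≥ exp (-C (1 + A))`.
`gp`: the time (with respect to `|q| |dz|² ≤ K² dt²`) of a path of diameter `≥ D / M`.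
-/

noncomputable section

namespace Pool.Agent.MP_ae5b4e_an_GD

open Complex Set Filter Topology Metric MeasureTheory
open scoped ComplexConjugate
open Pool.Agent.MP_ae5b4e_an_WB (Hm)

theorem den_ne {z z0 : ℂ} (hz : z.im < 0) (h0 : z0.im < 0) : z - conj z0 ≠ 0 := by
  intro h
  have := congrArg Complex.im h
  simp only [sub_im, conj_im, zero_im] at this
  linarith

theorem mob_norm {z z0 : ℂ} (hz : z.im < 0) (h0 : z0.im < 0) :
    ‖(z - z0) / (z - conj z0)‖ ^ 2 = 1 - 4 * (z.im * z0.im) / ‖z - conj z0‖ ^ 2 := by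
  have h1 := den_ne hz h0
  have h2 : 0 < ‖z - conj z0‖ := norm_pos_iff.2 h1
  rw [norm_div, div_pow, eq_sub_iff_add_eq, ← add_div, div_eq_one_iff_eq (by positivity),
    ← Complex.normSq_eq_norm_sq, ← Complex.normSq_eq_norm_sq]
  simp only [Complex.normSq_apply, sub_re, sub_im, conj_re, conj_im]
  ring

theorem mob_diff {z1 z2 z0 : ℂ} (h1 : z1.im < 0) (h2 : z2.im < 0) (h0 : z0.im < 0) :
    (z1 - z0) / (z1 - conj z0) - (z2 - z0) / (z2 - conj z0) =
      (z1 - z2) * (z0 - conj z0) / ((z1 - conj z0) * (z2 - conj z0)) := by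
  have a1 := den_ne h1 h0
  have a2 := den_ne h2 h0
  rw [div_sub_div _ _ a1 a2]
  congr 1
  ring

theorem half_low {ε B : ℝ} (hε : 0 < ε) (hB : 0 < B) : ∃ C : ℝ, 0 < C ∧
    ∀ (f : ℂ → ℂ) (D A : ℝ) (z0 : ℂ) (G : Set ℂ), 0 < D → DifferentiableOn ℂ f Hm →
      (∀ z ∈ Hm, ‖f z‖ ≤ 1) → 0 ≤ A → Real.exp (-A) ≤ ‖f z0‖ → ε * D ≤ -z0.im →
      IsPreconnected G → (∀ z ∈ G, ε * D ≤ -z.im) → (∀ z ∈ G, ‖z - conj z0‖ ≤ B * D) →
      (∃ z1 ∈ G, ∃ z2 ∈ G, ε * D ≤ dist z1 z2) →
      ∃ z ∈ G, Real.exp (-(C * (1 + A))) ≤ ‖f z‖ := by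
  set κ : ℝ := min (ε ^ 2 / B ^ 2) (1 / 8) with hκ
  have hκ0 : 0 < κ := lt_min (by positivity) (by norm_num)
  have hκ1 : κ ≤ 1 / 8 := min_le_right _ _
  have hκ2 : κ ≤ ε ^ 2 / B ^ 2 := min_le_left _ _
  set δ : ℝ := min (2 * ε ^ 2 / B ^ 2) 1 with hδ
  have hδ0 : 0 < δ := lt_min (by positivity) one_pos
  have hδ1 : δ ≤ 1 := min_le_right _ _
  have hδ2 : δ ≤ 2 * ε ^ 2 / B ^ 2 := min_le_left _ _
  obtain ⟨C, hC, hmm⟩ := mm (ρ := 1 - 2 * κ) (δ := δ) (by linarith) (by linarith) hδ0 (by linarith)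
  refine ⟨C, hC, ?_⟩
  intro f D A z0 G hD hf hb hA h0 hz0 hG hGd hGb ⟨z1, hz1, z2, hz2, hd⟩
  have hεD : 0 < ε * D := by positivity
  have hi0 : z0.im < 0 := by linarith
  have hHm : ∀ z : ℂ, z ∈ Hm ↔ z.im < 0 := fun z => Iff.rfl
  have him : ∀ z ∈ G, z.im < 0 := fun z hz => by linarith [hGd z hz]
  set F : ℂ → ℂ := fun u => f ((z0 - conj z0 * u) / (1 - u)) with hF
  have hne : ∀ u : ℂ, u ∈ ball (0 : ℂ) 1 → 1 - u ≠ 0 := by
    intro u hu h
    rw [mem_ball_zero_iff] at hu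
    have : u = 1 := (sub_eq_zero.1 h).symm
    rw [this, norm_one] at hu
    exact lt_irrefl _ hu
  have hmap : ∀ u ∈ ball (0 : ℂ) 1, (z0 - conj z0 * u) / (1 - u) ∈ Hm := by
    intro u hu
    rw [hHm]
    have h1 := hne u hu
    rw [mem_ball_zero_iff] at hu
    have h2 : ((z0 - conj z0 * u) / (1 - u)).im =
        z0.im * (1 - Complex.normSq u) / Complex.normSq (1 - u) := by
      rw [Complex.div_im]
      simp only [Complex.normSq_apply, sub_re, sub_im, mul_re, mul_im, conj_re, conj_im, one_re,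
        one_im]
      ring
    rw [h2]
    have h3 : Complex.normSq u < 1 := by
      rw [Complex.normSq_eq_norm_sq]
      nlinarith [norm_nonneg u]
    have h4 : 0 < Complex.normSq (1 - u) := Complex.normSq_pos.2 h1
    apply div_neg_of_neg_of_pos _ h4
    nlinarith
  have hFd : DifferentiableOn ℂ F (ball 0 1) := by
    refine hf.comp ?_ hmap
    intro u hu
    have h1 := hne u hu
    have h2 : DifferentiableAt ℂ (fun u : ℂ => (z0 - conj z0 * u) / (1 - u)) u := by
      fun_prop (disch := exact h1)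
    exact h2.differentiableWithinAt
  have hFb : ∀ u ∈ ball (0 : ℂ) 1, ‖F u‖ ≤ 1 := fun u hu => hb _ (hmap u hu)
  have hF0 : F 0 = f z0 := by simp [hF]
  set ζ : ℂ → ℂ := fun z => (z - z0) / (z - conj z0) with hζ
  have hinv : ∀ z : ℂ, z.im < 0 → F (ζ z) = f z := by
    intro z hz
    have a1 := den_ne hz hi0
    have a2 := den_ne hi0 hi0
    have e1 : (1 - ζ z) * (z - conj z0) = z0 - conj z0 := by
      simp only [hζ]
      rw [sub_mul, div_mul_cancel₀ _ a1]
      ring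
    have a3 : 1 - ζ z ≠ 0 := by
      intro h
      rw [h, zero_mul] at e1
      exact a2 e1.symm
    have e2 : (z0 - conj z0 * ζ z) / (1 - ζ z) = z := by
      rw [div_eq_iff a3]
      have e3 : ζ z * (z - conj z0) = z - z0 := by
        simp only [hζ]
        rw [div_mul_cancel₀ _ a1]
      linear_combination e3
    simp only [hF]
    rw [e2]
  have hζn : ∀ z ∈ G, ‖ζ z‖ ≤ 1 - 2 * κ := by
    intro z hz
    have h1 := mob_norm (him z hz) hi0
    have h2 := hGb z hz
    have h3 := hGd z hz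
    have h4 : 0 < ‖z - conj z0‖ := norm_pos_iff.2 (den_ne (him z hz) hi0)
    have h5 : κ ≤ z.im * z0.im / ‖z - conj z0‖ ^ 2 := by
      refine hκ2.trans ?_
      rw [div_le_div_iff₀ (by positivity) (by positivity)]
      have h6 : (ε * D) ^ 2 ≤ z.im * z0.im := by nlinarith
      have h7 : ‖z - conj z0‖ ^ 2 ≤ (B * D) ^ 2 := by gcongr
      have h8 : 0 ≤ z.im * z0.im := le_trans (by positivity) h6
      have h9 : ε ^ 2 * ‖z - conj z0‖ ^ 2 ≤ ε ^ 2 * (B * D) ^ 2 := by gcongr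
      have h10 : (ε * D) ^ 2 * B ^ 2 ≤ z.im * z0.im * B ^ 2 := by gcongr
      calc ε ^ 2 * ‖z - conj z0‖ ^ 2 ≤ ε ^ 2 * (B * D) ^ 2 := h9
        _ = (ε * D) ^ 2 * B ^ 2 := by ring
        _ ≤ _ := h10
    have h6 : ‖ζ z‖ ^ 2 ≤ (1 - 2 * κ) ^ 2 := by
      have h7 : ‖ζ z‖ ^ 2 = 1 - 4 * (z.im * z0.im / ‖z - conj z0‖ ^ 2) := by
        simp only [hζ]
        rw [h1]
        ring
      rw [h7]
      nlinarith
    exact le_of_sq_le_sq h6 (by linarith)
  have hζd : δ ≤ dist (ζ z1) (ζ z2) := by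
    rw [dist_eq_norm]
    simp only [hζ]
    rw [mob_diff (him z1 hz1) (him z2 hz2) hi0, norm_div, norm_mul, norm_mul]
    have h1 : 0 < ‖z1 - conj z0‖ := norm_pos_iff.2 (den_ne (him z1 hz1) hi0)
    have h2 : 0 < ‖z2 - conj z0‖ := norm_pos_iff.2 (den_ne (him z2 hz2) hi0)
    refine hδ2.trans ?_
    rw [div_le_div_iff₀ (by positivity) (by positivity)]
    have h3 : 2 * (ε * D) ≤ ‖z0 - conj z0‖ := by
      have h4 : ‖z0 - conj z0‖ = 2 * |z0.im| := by
        have h5 : z0 - conj z0 = (2 * z0.im : ℝ) * I := by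
          rw [Complex.sub_conj]
        rw [h5, norm_mul, norm_real, norm_I, mul_one, Real.norm_eq_abs, abs_mul,
          abs_of_pos (by norm_num : (0 : ℝ) < 2)]
      rw [h4, abs_of_neg hi0]
      linarith
    have h4 : ‖z1 - conj z0‖ * ‖z2 - conj z0‖ ≤ (B * D) * (B * D) :=
      mul_le_mul (hGb z1 hz1) (hGb z2 hz2) h2.le (by positivity)
    rw [dist_eq_norm] at hd
    have h5 : (ε * D) * (2 * (ε * D)) ≤ ‖z1 - z2‖ * ‖z0 - conj z0‖ :=
      mul_le_mul hd h3 (by positivity) (norm_nonneg _)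
    calc 2 * ε ^ 2 * (‖z1 - conj z0‖ * ‖z2 - conj z0‖)
        ≤ 2 * ε ^ 2 * ((B * D) * (B * D)) := by gcongr
      _ = (ε * D) * (2 * (ε * D)) * B ^ 2 := by ring
      _ ≤ _ := by gcongr
  obtain ⟨t, ht, hlow⟩ := hmm F A (ζ z1) hFd hFb hA (by rw [hF0]; exact h0)
    (by linarith [hζn z1 hz1])
  have hcont : ContinuousOn (fun z => dist (ζ z) (ζ z1)) G := by
    refine continuous_dist.comp_continuousOn (ContinuousOn.prodMk ?_ continuousOn_const)
    intro z hz
    have h1 := den_ne (him z hz) hi0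
    have h2 : DifferentiableAt ℂ (fun z : ℂ => (z - z0) / (z - conj z0)) z := by
      fun_prop (disch := exact h1)
    exact h2.continuousAt.continuousWithinAt
  have hivt := hG.intermediate_value hz1 hz2 hcont
  have htm : t ∈ Icc (dist (ζ z1) (ζ z1)) (dist (ζ z2) (ζ z1)) := by
    rw [dist_self, dist_comm (ζ z2)]
    exact ⟨ht.1.le, ht.2.le.trans hζd⟩
  obtain ⟨z, hz, hzt⟩ := hivt htm
  refine ⟨z, hz, ?_⟩
  have := hlow (ζ z) (hζn z hz) hzt
  rwa [hinv z (him z hz)] at this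

/-- the first exit of a ball about `g t0`, in the direction of `t1` -/
theorem exit {g : ℝ → ℂ} {a b t0 t1 r : ℝ} (hg : ContinuousOn g (Icc a b)) (h0 : t0 ∈ Icc a b)
    (h1 : t1 ∈ Icc a b) (hr : 0 < r) (hd : r ≤ dist (g t1) (g t0)) :
    ∃ t2 ∈ uIcc t0 t1, dist (g t2) (g t0) = r ∧ ∀ t ∈ uIcc t0 t2, dist (g t) (g t0) ≤ r := by
  have hsub : uIcc t0 t1 ⊆ Icc a b := by
    rw [← uIcc_of_le (h0.1.trans h0.2)]
    exact uIcc_subset_uIcc (by rw [uIcc_of_le (h0.1.trans h0.2)]; exact h0)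
      (by rw [uIcc_of_le (h0.1.trans h0.2)]; exact h1)
  have hc : ContinuousOn (fun t => dist (g t) (g t0)) (uIcc t0 t1) :=
    continuous_dist.comp_continuousOn ((hg.mono hsub).prodMk continuousOn_const)
  have hivt : ∀ t ∈ uIcc t0 t1, r ≤ dist (g t) (g t0) →
      ∃ u ∈ uIcc t0 t, dist (g u) (g t0) = r := by
    intro t ht hrt
    have h2 : uIcc t0 t ⊆ uIcc t0 t1 := uIcc_subset_uIcc left_mem_uIcc ht
    have h3 := intermediate_value_uIcc (hc.mono h2)
    have h4 : r ∈ uIcc (dist (g t0) (g t0)) (dist (g t) (g t0)) := by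
      rw [dist_self, uIcc_of_le dist_nonneg]
      exact ⟨hr.le, hrt⟩
    obtain ⟨u, hu, hur⟩ := h3 h4
    exact ⟨u, hu, hur⟩
  set S : Set ℝ := {t | t ∈ uIcc t0 t1 ∧ dist (g t) (g t0) = r} with hS
  have hSc : IsCompact S := by
    have h2 : S = uIcc t0 t1 ∩ (fun t => dist (g t) (g t0)) ⁻¹' {r} := by
      ext t
      simp [hS]
    rw [h2]
    exact (isCompact_uIcc).of_isClosed_subset (hc.preimage_isClosed_of_isClosed isClosed_Icc
      isClosed_singleton) inter_subset_left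
  have hSn : S.Nonempty := by
    obtain ⟨u, hu, hur⟩ := hivt t1 right_mem_uIcc hd
    exact ⟨u, hu, hur⟩
  obtain ⟨t2, ht2, hmin⟩ := hSc.exists_isMinOn hSn (f := fun t => |t - t0|) (by fun_prop)
  refine ⟨t2, ht2.1, ht2.2, ?_⟩
  intro t ht
  by_contra hlt
  push Not at hlt
  have htt : t ∈ uIcc t0 t1 := uIcc_subset_uIcc left_mem_uIcc ht2.1 ht
  obtain ⟨u, hu, hur⟩ := hivt t htt hlt.le
  have huS : u ∈ S := ⟨uIcc_subset_uIcc left_mem_uIcc htt hu, hur⟩
  have h3 : |t2 - t0| ≤ |u - t0| := hmin huS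
  have h4 : |u - t0| ≤ |t - t0| := abs_sub_left_of_mem_uIcc hu
  have h5 : |t - t0| ≤ |t2 - t0| := abs_sub_left_of_mem_uIcc ht
  have h6 : u = t := by
    have e1 : |u - t0| = |t - t0| := by linarith
    rcases abs_eq_abs.1 e1 with h | h
    · linarith
    · rcases mem_uIcc.1 hu with h7 | h7
      · linarith [h7.1, h7.2]
      · linarith [h7.1, h7.2]
  rw [h6] at hur
  linarith

theorem sub_Icc {a b t0 t1 : ℝ} (h0 : t0 ∈ Icc a b) (h1 : t1 ∈ Icc a b) :
    uIcc t0 t1 ⊆ Icc a b := by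
  rw [← uIcc_of_le (h0.1.trans h0.2)]
  exact uIcc_subset_uIcc (by rw [uIcc_of_le (h0.1.trans h0.2)]; exact h0)
    (by rw [uIcc_of_le (h0.1.trans h0.2)]; exact h1)

/-- **lower bound of the time**: `t ↦ g t` is a path at depth `≥ D` and of diameter `≥ D / M`,
near a good point `z0`, with speed `|q| |g'|² ≤ K²`. -/
theorem gp {M : ℝ} (hM : 1 ≤ M) : ∃ C1 : ℝ, 0 < C1 ∧
    ∀ (q : ℂ → ℂ) (D A K : ℝ) (z0 : ℂ) (a b t0 t1 : ℝ) (g g' : ℝ → ℂ), 1 ≤ D → 0 ≤ A → 0 < K →
      DifferentiableOn ℂ q Hm → (∀ z : ℂ, D / (2 * M) ≤ -z.im → ‖q z‖ ≤ 1) →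
      Real.exp (-A) ≤ ‖q z0‖ → D / M ≤ -z0.im → -z0.im ≤ M * D →
      (∀ t ∈ Icc a b, HasDerivAt g (g' t) t) → (∀ t ∈ Icc a b, D ≤ -(g t).im) →
      (∀ t ∈ Icc a b, ‖q (g t)‖ * ‖g' t‖ ^ 2 ≤ K ^ 2) → t0 ∈ Icc a b → t1 ∈ Icc a b →
      -(g t0).im ≤ M * D → |(g t0).re - z0.re| ≤ M * D → D / M ≤ dist (g t1) (g t0) →
      Real.exp (-(C1 * (1 + A))) ≤ K * (b - a) := by
  have hM0 : 0 < M := by linarith
  obtain ⟨C, hC, hlow⟩ := half_low (ε := 1 / (2 * M)) (B := 4 * M) (by positivity) (by positivity)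
  have hl16 : 0 ≤ Real.log (16 * M) := Real.log_nonneg (by linarith)
  refine ⟨2 * C + Real.log (16 * M), by positivity, ?_⟩
  intro q D A K z0 a b t0 t1 g g' hD hA hK hq hqb hz0 hzd hzd2 hg hgd hgs ht0 ht1 hg0 hgr hdist
  have hD0 : 0 < D := by linarith
  have hDM : 0 < D / M := by positivity
  have hDM2 : D / (2 * M) = D / M / 2 := by field_simp
  have hDMle : D / M ≤ D := div_le_self hD0.le hM
  have hDMle' : D ≤ M * D := by nlinarith
  have hgc : ContinuousOn g (Icc a b) := fun t ht => (hg t ht).continuousAt.continuousWithinAt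
  obtain ⟨t2, ht2, hd2, hball⟩ := exit hgc ht0 ht1 hDM hdist
  have ht2' : t2 ∈ Icc a b := sub_Icc ht0 ht1 ht2
  have hsub : uIcc t0 t2 ⊆ Icc a b := sub_Icc ht0 ht2'
  set h : ℝ := D / (2 * M) with hh
  have hh0 : 0 < h := by rw [hDM2]; positivity
  have hqHm : DifferentiableOn ℂ (fun u : ℂ => q (u - h * I)) Hm := by
    refine hq.comp (by fun_prop) ?_
    intro u hu
    have hu' : u.im < 0 := hu
    show (u - h * I).im < 0
    simp only [sub_im, mul_im, ofReal_re, ofReal_im, I_re, I_im]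
    linarith
  obtain ⟨w, hw, hwl⟩ := hlow (fun u : ℂ => q (u - h * I)) D A (z0 + h * I)
    ((fun t => g t + h * I) '' uIcc t0 t2) hD0 hqHm (by
      intro u hu
      have hu' : u.im < 0 := hu
      apply hqb
      simp only [sub_im, mul_im, ofReal_re, ofReal_im, I_re, I_im]
      linarith) hA (by simpa using hz0) (by
      simp only [add_im, mul_im, ofReal_re, ofReal_im, I_re, I_im]
      have : 1 / (2 * M) * D = h := by rw [hh]; ring
      rw [this]
      have : D / M = 2 * h := by rw [hh]; field_simp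
      linarith)
    (isPreconnected_uIcc.image _ ((hgc.mono hsub).add continuousOn_const)) (by
      rintro z ⟨t, ht, rfl⟩
      have := hgd t (hsub ht)
      simp only [add_im, mul_im, ofReal_re, ofReal_im, I_re, I_im]
      have h1 : 1 / (2 * M) * D = h := by rw [hh]; ring
      rw [h1]
      have : D / M = 2 * h := by rw [hh]; field_simp
      linarith) (by
      rintro z ⟨t, ht, rfl⟩
      have h1 := hball t ht
      rw [dist_eq_norm] at h1
      have h2 : g t + h * I - conj (z0 + h * I) = (g t - g t0) + ((g t0).re - z0.re : ℝ) +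
          ((g t0).im + z0.im + 2 * h : ℝ) * I := by
        apply Complex.ext
        · simp only [sub_re, add_re, mul_re, ofReal_re, ofReal_im, I_re, I_im, conj_re]
          ring
        · simp only [sub_im, add_im, mul_im, ofReal_re, ofReal_im, I_re, I_im, conj_im]
          ring
      rw [h2]
      have h3 := norm_add₃_le (a := g t - g t0) (b := (((g t0).re - z0.re : ℝ) : ℂ))
        (c := ((g t0).im + z0.im + 2 * h : ℝ) * I)
      refine h3.trans ?_
      rw [norm_mul, norm_I, mul_one, norm_real, norm_real, Real.norm_eq_abs, Real.norm_eq_abs]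
      have h4 : |(g t0).im + z0.im + 2 * h| ≤ 2 * (M * D) := by
        have : D / M = 2 * h := by rw [hh]; field_simp
        rw [abs_le]
        constructor
        · linarith
        · have := hgd t0 ht0
          linarith
      nlinarith)
    ⟨g t0 + h * I, ⟨t0, left_mem_uIcc, rfl⟩, g t2 + h * I, ⟨t2, right_mem_uIcc, rfl⟩, by
      rw [dist_add_right, dist_comm, hd2]
      have : 1 / (2 * M) * D = D / M / 2 := by field_simp
      linarith⟩
  obtain ⟨s, hs, rfl⟩ := hw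
  have hs' : s ∈ Icc a b := hsub hs
  simp only [add_sub_cancel_right] at hwl
  set m : ℝ := Real.exp (-(C * (1 + A))) with hm
  have hm0 : 0 < m := Real.exp_pos _
  have hm1 : m ≤ 1 := by
    rw [hm]
    apply Real.exp_le_one_iff.2
    have : 0 ≤ C * (1 + A) := by positivity
    linarith
  -- a ball about `g s` where `|q| ≥ m / 2`
  set z1 : ℂ := g s with hz1
  have hz1d : D ≤ -z1.im := hgd s hs'
  have hDh : D / M = 2 * h := by rw [hh]; field_simp
  have hball1 : ∀ z ∈ ball z1 h, h ≤ -z.im := by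
    intro z hz
    rw [mem_ball, dist_eq_norm] at hz
    have h1 := (Complex.abs_im_le_norm (z - z1)).trans hz.le
    rw [sub_im, abs_le] at h1
    linarith [h1.1, h1.2]
  have hqd1 : DifferentiableOn ℂ q (ball z1 h) := by
    refine hq.mono ?_
    intro z hz
    have := hball1 z hz
    show z.im < 0
    linarith
  have hmaps : MapsTo q (ball z1 h) (closedBall (q z1) 2) := by
    intro z hz
    rw [mem_closedBall, dist_eq_norm]
    have h1 := hqb z (hball1 z hz)
    have h2 := hqb z1 (by linarith)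
    calc ‖q z - q z1‖ ≤ ‖q z‖ + ‖q z1‖ := norm_sub_le _ _
      _ ≤ 2 := by linarith
  set r1 : ℝ := m * h / 4 with hr1
  have hr10 : 0 < r1 := by positivity
  have hr1h : r1 < h := by
    rw [hr1]
    nlinarith
  have hqlow : ∀ z : ℂ, dist z z1 ≤ r1 → m / 2 ≤ ‖q z‖ := by
    intro z hz
    have h1 := Complex.dist_le_div_mul_dist_of_mapsTo_ball hqd1 hmaps
      (z := z) (by rw [mem_ball]; linarith)
    have h2 : 2 / h * dist z z1 ≤ 2 / h * r1 := by gcongr
    have h3 : 2 / h * r1 = m / 2 := by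
      rw [hr1]
      field_simp
      norm_num
    rw [dist_eq_norm] at h1
    have h4 := norm_sub_norm_le (q z1) (q z)
    rw [norm_sub_rev] at h4
    linarith
  -- exit from the ball
  have hex : ∃ t3 ∈ Icc a b, r1 ≤ dist (g t3) (g s) := by
    by_contra hcon
    push Not at hcon
    have h1 := hcon t0 ht0
    have h2 := hcon t2 ht2'
    have h3 := dist_triangle_right (g t2) (g t0) (g s)
    rw [hd2, hDh] at h3
    linarith
  obtain ⟨t3, ht3, ht3d⟩ := hex
  obtain ⟨t4, ht4, hd4, hball4⟩ := exit hgc hs' ht3 hr10 ht3d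
  have ht4' : t4 ∈ Icc a b := sub_Icc hs' ht3 ht4
  have hsub4 : uIcc s t4 ⊆ Icc a b := sub_Icc hs' ht4'
  set V : ℝ := K * (2 / m) with hV
  have hspeed : ∀ t ∈ uIcc s t4, ‖g' t‖ ≤ V := by
    intro t ht
    have h1 := hgs t (hsub4 ht)
    have h2 := hqlow (g t) (hball4 t ht)
    have h3 : m / 2 * ‖g' t‖ ^ 2 ≤ K ^ 2 := by
      refine le_trans ?_ h1
      gcongr
    have h4 : (m / 2 * ‖g' t‖) ^ 2 ≤ K ^ 2 := by
      calc (m / 2 * ‖g' t‖) ^ 2 = m / 2 * (m / 2 * ‖g' t‖ ^ 2) := by ring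
        _ ≤ 1 * (m / 2 * ‖g' t‖ ^ 2) := by
          gcongr
          linarith
        _ ≤ K ^ 2 := by rw [one_mul]; exact h3
    have h5 : m / 2 * ‖g' t‖ ≤ K := le_of_sq_le_sq h4 hK.le
    rw [hV]
    calc ‖g' t‖ = (m / 2 * ‖g' t‖) * (2 / m) := by field_simp
      _ ≤ K * (2 / m) := by gcongr
  have hV0 : 0 < V := by positivity
  have hmv := (convex_uIcc s t4).norm_image_sub_le_of_norm_hasDerivWithin_le (f := g) (f' := g')
    (fun t ht => (hg t (hsub4 ht)).hasDerivWithinAt) hspeed left_mem_uIcc right_mem_uIcc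
  rw [← dist_eq_norm, hd4] at hmv
  have hlen : ‖t4 - s‖ ≤ b - a := by
    rw [Real.norm_eq_abs, abs_le]
    constructor
    · linarith [ht4'.1, hs'.2]
    · linarith [ht4'.2, hs'.1]
  have hfin : r1 ≤ V * (b - a) := by
    refine hmv.trans ?_
    gcongr
  have h1 : m ^ 2 / (16 * M) ≤ K * (b - a) := by
    have h2 : r1 * (m / 2) ≤ V * (b - a) * (m / 2) := by gcongr
    have h3 : V * (b - a) * (m / 2) = K * (b - a) := by
      rw [hV]
      field_simp
    rw [h3] at h2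
    refine le_trans ?_ h2
    have h4 : 1 / (2 * M) ≤ h := by
      rw [hh]
      gcongr
    rw [hr1]
    calc m ^ 2 / (16 * M) = m * (1 / (2 * M)) / 4 * (m / 2) := by
          field_simp
          norm_num
      _ ≤ m * h / 4 * (m / 2) := by gcongr
  refine le_trans ?_ h1
  have h5 : m ^ 2 / (16 * M) = Real.exp (-(2 * (C * (1 + A))) - Real.log (16 * M)) := by
    rw [Real.exp_sub, Real.exp_log (by positivity), hm, ← Real.exp_nat_mul]
    congr 2
    push_cast
    ring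
  rw [h5]
  apply Real.exp_le_exp.2
  have h6 : 0 ≤ Real.log (16 * M) * A := by positivity
  nlinarith

end Pool.Agent.MP_ae5b4e_an_GD
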