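import Pool.Agent.Lib.MP_ae5b4e_an_GD.Bla
import Pool.Agent.Lib.MP_ae5b4e_an_UT.Bieb
import Pool.Agent.Lib.MP_4b1e7e_an.Asy.Julia

/-!
# POR (iii), good points (GD), part 2: minimum modulus on a circle about an arbitrary centre

`mm`: `|f| ≤ 1` on the unit disc, `|f 0| ≥ exp (-A)`, any centre `p`: there is a radius `t < δ`
such that `|f| ≥ exp (-C (1 + A))` on the part of the circle `|z - p| = t` in the disc `|z| ≤ ρ`;
`C = C (ρ, δ)`.
-/

noncomputable section

namespace Pool.Agent.MP_ae5b4e_an_GD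

open Complex Set Filter Topology Metric MeasureTheory
open scoped ComplexConjugate

/-- Harnack for the zero free factor -/
theorem low_g {ρ r : ℝ} (hρ0 : 0 < ρ) (hρr : ρ < r) (hr : r < 1) {g : ℂ → ℂ}
    (hgd : DifferentiableOn ℂ g (ball 0 1)) (hgb : ∀ z ∈ ball (0 : ℂ) 1, ‖g z‖ ≤ 1)
    (hg0 : ∀ z : ℂ, ‖z‖ ≤ r → g z ≠ 0) {z : ℂ} (hz : ‖z‖ ≤ ρ) :
    4 / (1 - (ρ / r) ^ 2) * Real.log ‖g 0‖ ≤ Real.log ‖g z‖ := by
  have hr0 : 0 < r := hρ0.trans hρr
  have hsub : ball (0 : ℂ) r ⊆ ball 0 1 := ball_subset_ball hr.le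
  obtain ⟨F, hFd, hFe, -, -⟩ := Pool.Agent.Lib.MP_ae5b4e_an_UT.exists_log_ball (c := 0) hr0
    (hgd.mono hsub) (fun z hz => hg0 z (by rw [mem_ball_zero_iff] at hz; exact hz.le))
  have hre : ∀ z ∈ ball (0 : ℂ) r, Real.log ‖g z‖ = (F z).re := by
    intro z hz
    rw [← hFe z hz, Complex.norm_exp, Real.log_exp]
  have hneg : ∀ z ∈ ball (0 : ℂ) r, (F z).re ≤ 0 := by
    intro z hz
    rw [← hre z hz]
    exact Real.log_nonpos (norm_nonneg _) (hgb z (hsub hz))
  have h0r : (0 : ℂ) ∈ ball (0 : ℂ) r := mem_ball_self hr0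
  have hq : ρ / r < 1 := (div_lt_one hr0).2 hρr
  have hq0 : 0 < ρ / r := div_pos hρ0 hr0
  have hden : 0 < 1 - (ρ / r) ^ 2 := by nlinarith
  have hzr : z ∈ ball (0 : ℂ) r := by
    rw [mem_ball_zero_iff]
    linarith
  rw [hre 0 h0r, hre z hzr]
  rcases eq_or_ne z 0 with rfl | hz0
  · have h1 : 1 ≤ 4 / (1 - (ρ / r) ^ 2) := by
      rw [le_div_iff₀ hden]
      nlinarith
    have h2 := hneg 0 h0r
    nlinarith
  · have hzp : 0 < ‖z‖ := norm_pos_iff.2 hz0
    have hznc : (‖z‖ : ℂ) ≠ 0 := by exact_mod_cast hzp.ne'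
    set e : ℂ := z / ‖z‖ with he
    have hen : ‖e‖ = 1 := by
      rw [he, norm_div, norm_real, norm_norm, div_self hzp.ne']
    set s : ℝ := ‖z‖ / r with hs
    have hs0 : 0 < s := div_pos hzp hr0
    have hsq : s ≤ ρ / r := by
      rw [hs]
      gcongr
    have hmap : ∀ u ∈ ball (0 : ℂ) 1, (r : ℂ) * e * u ∈ ball (0 : ℂ) r := by
      intro u hu
      rw [mem_ball_zero_iff] at hu ⊢
      rw [norm_mul, norm_mul, norm_real, Real.norm_of_nonneg hr0.le, hen]
      nlinarith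
    have hPd : DifferentiableOn ℂ (fun u : ℂ => -F ((r : ℂ) * e * u)) (ball 0 1) := by
      refine DifferentiableOn.neg ?_
      exact hFd.comp (by fun_prop) hmap
    have hPre : ∀ u ∈ ball (0 : ℂ) 1, 0 ≤ ((fun u : ℂ => -F ((r : ℂ) * e * u)) u).re := by
      intro u hu
      have := hneg _ (hmap u hu)
      simp only [neg_re]
      linarith
    have h1 := Pool.Agent.MobConv.harnack_two hPd hPre hs0 (by linarith) (z := 0) (by simp)
    have e1 : (r : ℂ) * e * (s : ℂ) = z := by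
      have hrc : (r : ℂ) ≠ 0 := by exact_mod_cast hr0.ne'
      rw [he, hs]
      push_cast
      field_simp
    have e2 : (r : ℂ) * e * 0 = 0 := by ring
    simp only [neg_re, norm_zero, mul_zero, sub_zero, norm_one, e1] at h1
    have h3 : s ^ 2 ≤ (ρ / r) ^ 2 := by gcongr
    have h4 := hneg z hzr
    have h5 : -(4 / (1 - (ρ / r) ^ 2) * (F 0).re) ≥ -(F z).re := by
      have h6 : (1 - (ρ / r) ^ 2) * (-(F z).re) ≤ 4 * (-(F 0).re) := by
        nlinarith
      have h7 : -(F z).re ≤ 4 * (-(F 0).re) / (1 - (ρ / r) ^ 2) := by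
        rw [le_div_iff₀ hden]
        linarith
      calc -(F z).re ≤ 4 * (-(F 0).re) / (1 - (ρ / r) ^ 2) := h7
        _ = -(4 / (1 - (ρ / r) ^ 2) * (F 0).re) := by ring
    linarith

theorem int_log {a δ : ℝ} (ha0 : 0 ≤ a) (ha : a ≤ 2) (hδ : 0 < δ) (hδ2 : δ ≤ 2) :
    IntervalIntegrable (fun t : ℝ => Real.log |t - a|) volume 0 δ ∧
      -6 ≤ ∫ t in (0 : ℝ)..δ, Real.log |t - a| := by
  have h1 : (fun t : ℝ => Real.log |t - a|) = fun t : ℝ => Real.log (t - a) := by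
    funext t
    rw [Real.log_abs]
  rw [h1]
  have h2 : IntervalIntegrable (fun t : ℝ => Real.log (t - a)) volume 0 δ := by
    have := (intervalIntegral.intervalIntegrable_log' (a := 0 - a) (b := δ - a)).comp_sub_right a
    simpa using this
  refine ⟨h2, ?_⟩
  rw [intervalIntegral.integral_comp_sub_right (fun x => Real.log x) a, integral_log]
  have h3 : ∀ x : ℝ, |x| ≤ 2 → -2 ≤ x * Real.log x := by
    intro x hx
    rcases le_or_gt 0 x with h | h
    · rcases eq_or_lt_of_le h with rfl | hp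
      · simp
      · have h5 := Real.one_sub_inv_le_log_of_pos hp
        have h6 : x * (1 - x⁻¹) ≤ x * Real.log x := by gcongr
        have h7 : x * (1 - x⁻¹) = x - 1 := by field_simp
        linarith
    · rw [abs_of_neg h] at hx
      have h5 : x * Real.log x = -((-x) * Real.log (-x)) := by
        rw [Real.log_neg_eq_log]
        ring
      rw [h5]
      have h6 : Real.log (-x) ≤ 1 := by
        have h8 : Real.log (-x) ≤ Real.log 2 := Real.log_le_log (by linarith) hx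
        have h9 := Real.log_two_lt_d9
        linarith
      nlinarith
  have h4 := h3 (δ - a) (by rw [abs_le]; constructor <;> linarith)
  have h5 := h3 (a) (by rw [abs_le]; constructor <;> linarith)
  have h6 : (0 - a) * Real.log (0 - a) = -(a * Real.log a) := by
    rw [zero_sub, Real.log_neg_eq_log]
    ring
  rw [h6]
  have h7 : a * Real.log a ≤ 2 := by
    rcases eq_or_lt_of_le ha0 with rfl | hp
    · simp
    · have h8 : Real.log a ≤ Real.log 2 := Real.log_le_log hp ha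
      have h9 := Real.log_two_lt_d9
      nlinarith
  linarith

theorem int_sum {δ : ℝ} (hδ : 0 < δ) (hδ2 : δ ≤ 2) : ∀ L : List ℝ,
    (∀ a ∈ L, 0 ≤ a ∧ a ≤ 2) →
    IntervalIntegrable (fun t : ℝ => (L.map (fun a => Real.log |t - a|)).sum) volume 0 δ ∧
      -(6 * (L.length : ℝ)) ≤ ∫ t in (0 : ℝ)..δ, (L.map (fun a => Real.log |t - a|)).sum := by
  intro L
  induction L with
  | nil =>
    intro _
    simp
  | cons a L ih =>
    intro h
    obtain ⟨h1, h2⟩ := ih (fun b hb => h b (List.mem_cons_of_mem _ hb))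
    obtain ⟨h3, h4⟩ := int_log (h a (by simp)).1 (h a (by simp)).2 hδ hδ2
    simp only [List.map_cons, List.sum_cons, List.length_cons]
    refine ⟨h3.add h1, ?_⟩
    rw [intervalIntegral.integral_add h3 h1]
    push_cast
    linarith

/-- a radius with large product of distances -/
theorem exists_rad {δ : ℝ} (hδ : 0 < δ) (hδ2 : δ ≤ 2) (L : List ℝ)
    (hL : ∀ a ∈ L, 0 ≤ a ∧ a ≤ 2) :
    ∃ t ∈ Ioo 0 δ, (∀ a ∈ L, t ≠ a) ∧
      -(6 / δ * (L.length : ℝ)) ≤ (L.map (fun a => Real.log |t - a|)).sum := by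
  obtain ⟨h1, h2⟩ := int_sum hδ hδ2 L hL
  set F : ℝ → ℝ := fun t => (L.map (fun a => Real.log |t - a|)).sum with hF
  have hint : Integrable F (volume.restrict (Ioc 0 δ)) := by
    rw [intervalIntegrable_iff_integrableOn_Ioc_of_le hδ.le] at h1
    exact h1
  have hμ : volume.restrict (Ioc (0 : ℝ) δ) ≠ 0 := by
    intro h
    have h3 := congrArg (fun μ => μ univ) h
    simp only [Measure.restrict_apply_univ, Real.volume_Ioc, sub_zero, Measure.coe_zero,
      Pi.zero_apply, ENNReal.ofReal_eq_zero] at h3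
    linarith
  set N : Set ℝ := {a | a ∈ L} ∪ (Ioo (0 : ℝ) δ)ᶜ with hN
  have hN0 : volume.restrict (Ioc (0 : ℝ) δ) N = 0 := by
    refine measure_union_null ?_ ?_
    · exact (List.finite_toSet L).measure_zero (volume.restrict (Ioc (0 : ℝ) δ))
    · rw [Measure.restrict_apply measurableSet_Ioo.compl]
      have h5 : (Ioo (0 : ℝ) δ)ᶜ ∩ Ioc 0 δ ⊆ {δ} := by
        rintro x ⟨hx1, hx2⟩
        rw [mem_singleton_iff]
        by_contra hne
        exact hx1 ⟨hx2.1, lt_of_le_of_ne hx2.2 hne⟩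
      exact measure_mono_null h5 (by simp)
  obtain ⟨t, htN, ht⟩ := exists_notMem_null_average_le hμ hint hN0
  rw [hN, mem_union, not_or, notMem_compl_iff] at htN
  refine ⟨t, htN.2, fun a ha hta => htN.1 (by rw [hta]; exact ha), ?_⟩
  have h6 : ⨍ a, F a ∂(volume.restrict (Ioc 0 δ)) = (∫ t in (0 : ℝ)..δ, F t) / δ := by
    rw [intervalIntegral.integral_of_le hδ.le, average_eq, smul_eq_mul]
    simp only [measureReal_restrict_apply_univ, Real.volume_real_Ioc_of_le hδ.le, sub_zero]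
    ring
  rw [h6] at ht
  refine le_trans ?_ ht
  rw [le_div_iff₀ hδ]
  have h7 : -(6 / δ * (L.length : ℝ)) * δ = -(6 * (L.length : ℝ)) := by
    field_simp
  rw [h7]
  exact h2

theorem prod_low {p z : ℂ} {t : ℝ} (hz : ‖z‖ < 1) (hzt : dist z p = t) : ∀ Z : List ℂ,
    (∀ w ∈ Z, ‖w‖ < 1) → (∀ w ∈ Z, t ≠ ‖w - p‖) →
    Real.exp ((Z.map (fun w => Real.log |t - ‖w - p‖|)).sum - (Z.length : ℝ) * Real.log 2) ≤
      ‖(Z.map (fun w => bl w z)).prod‖ := by
  intro Z
  induction Z with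
  | nil => simp
  | cons w Z ih =>
    intro h1 h2
    have ih' := ih (fun v hv => h1 v (List.mem_cons_of_mem _ hv))
      (fun v hv => h2 v (List.mem_cons_of_mem _ hv))
    have hw := h1 w (by simp)
    have hne := h2 w (by simp)
    simp only [List.map_cons, List.sum_cons, List.prod_cons, List.length_cons, norm_mul]
    have e1 : Real.log |t - ‖w - p‖| + (Z.map (fun w => Real.log |t - ‖w - p‖|)).sum -
        ((Z.length + 1 : ℕ) : ℝ) * Real.log 2 = (Real.log |t - ‖w - p‖| - Real.log 2) +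
        ((Z.map (fun w => Real.log |t - ‖w - p‖|)).sum - (Z.length : ℝ) * Real.log 2) := by
      push_cast
      ring
    rw [e1, Real.exp_add]
    refine mul_le_mul ?_ ih' (Real.exp_pos _).le (norm_nonneg _)
    have h3 : 0 < |t - ‖w - p‖| := abs_pos.2 (sub_ne_zero.2 hne)
    rw [Real.exp_sub, Real.exp_log h3, Real.exp_log two_pos, bl, norm_div]
    have h4 := one_sub_ne hw hz
    have h5 : ‖1 - conj w * z‖ ≤ 2 := by
      calc ‖1 - conj w * z‖ ≤ ‖(1 : ℂ)‖ + ‖conj w * z‖ := norm_sub_le _ _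
        _ = 1 + ‖w‖ * ‖z‖ := by rw [norm_one, norm_mul, RCLike.norm_conj]
        _ ≤ 2 := by nlinarith [norm_nonneg w, norm_nonneg z]
    have h6 : |t - ‖w - p‖| ≤ ‖z - w‖ := by
      rw [← hzt, dist_eq_norm]
      have h7 := abs_norm_sub_norm_le (z - p) (w - p)
      have h8 : z - p - (w - p) = z - w := by ring
      rwa [h8] at h7
    exact div_le_div₀ (norm_nonneg _) h6 (norm_pos_iff.2 h4) h5

/-- minimum modulus on a circle about an arbitrary centre -/
theorem mm {ρ δ : ℝ} (hρ0 : 0 < ρ) (hρ : ρ < 1) (hδ : 0 < δ) (hδ2 : δ ≤ 2) :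
    ∃ C : ℝ, 0 < C ∧ ∀ (f : ℂ → ℂ) (A : ℝ) (p : ℂ), DifferentiableOn ℂ f (ball 0 1) →
      (∀ z ∈ ball (0 : ℂ) 1, ‖f z‖ ≤ 1) → 0 ≤ A → Real.exp (-A) ≤ ‖f 0‖ → ‖p‖ ≤ 1 →
      ∃ t ∈ Ioo 0 δ, ∀ z : ℂ, ‖z‖ ≤ ρ → dist z p = t → Real.exp (-(C * (1 + A))) ≤ ‖f z‖ := by
  set r : ℝ := (1 + ρ) / 2 with hr
  have hρr : ρ < r := by rw [hr]; linarith
  have hr1 : r < 1 := by rw [hr]; linarith
  have hr0 : 0 < r := hρ0.trans hρr
  set ell : ℝ := Real.log (1 / r) with hell
  have hell0 : 0 < ell := by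
    rw [hell]
    apply Real.log_pos
    rw [lt_div_iff₀ hr0]
    linarith
  have hq : ρ / r < 1 := (div_lt_one hr0).2 hρr
  have hq0 : 0 < ρ / r := div_pos hρ0 hr0
  have hden : 0 < 1 - (ρ / r) ^ 2 := by nlinarith
  set c2 : ℝ := 4 / (1 - (ρ / r) ^ 2) with hc2
  have hc20 : 0 < c2 := div_pos (by norm_num) hden
  have hl2 : 0 < Real.log 2 := Real.log_pos (by norm_num)
  set c3 : ℝ := 6 / δ + Real.log 2 with hc3
  have hc30 : 0 < c3 := by positivity
  refine ⟨(1 / ell + 1) * c3 + c2, by positivity, ?_⟩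
  intro f A p hf hb hA h0 hp
  set n : ℕ := ⌈A / ell⌉₊ with hn
  have hn1 : A / ell ≤ n := Nat.le_ceil _
  have hn2 : (n : ℝ) ≤ A / ell + 1 := (Nat.ceil_lt_add_one (by positivity)).le
  have hrn : r ^ n ≤ ‖f 0‖ := by
    refine le_trans ?_ h0
    have h1 : r = Real.exp (-ell) := by
      rw [hell, one_div, Real.log_inv, neg_neg, Real.exp_log hr0]
    rw [h1, ← Real.exp_nat_mul]
    apply Real.exp_le_exp.2
    have h2 : A ≤ n * ell := by
      rw [div_le_iff₀ hell0] at hn1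
      exact hn1
    linarith
  obtain ⟨Z, g, hZl, hZr, hgd, hgb, hg0, hg1, hfg⟩ := fac hr0 hr1 n f hf hb hrn
  set L : List ℝ := Z.map (fun w => ‖w - p‖) with hL
  have hLb : ∀ a ∈ L, 0 ≤ a ∧ a ≤ 2 := by
    intro a ha
    rw [hL, List.mem_map] at ha
    obtain ⟨w, hw, rfl⟩ := ha
    refine ⟨norm_nonneg _, ?_⟩
    calc ‖w - p‖ ≤ ‖w‖ + ‖p‖ := norm_sub_le _ _
      _ ≤ 2 := by linarith [hZr w hw]
  obtain ⟨t, ht, hta, hts⟩ := exists_rad hδ hδ2 L hLb
  refine ⟨t, ht, ?_⟩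
  intro z hz hzt
  have hz1 : ‖z‖ < 1 := by linarith
  have hzb : z ∈ ball (0 : ℂ) 1 := by rwa [mem_ball_zero_iff]
  have h1 := prod_low hz1 hzt Z (fun w hw => lt_of_le_of_lt (hZr w hw) hr1) (by
    intro w hw
    exact hta _ (by rw [hL, List.mem_map]; exact ⟨w, hw, rfl⟩))
  have h2 := low_g hρ0 hρr hr1 hgd hgb hg0 hz
  have hLl : (L.length : ℝ) = Z.length := by
    rw [hL, List.length_map]
  have hLs : (L.map (fun a => Real.log |t - a|)).sum =
      (Z.map (fun w => Real.log |t - ‖w - p‖|)).sum := by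
    rw [hL, List.map_map]
    rfl
  rw [hLs, hLl] at hts
  have hg0p : 0 < ‖g 0‖ := lt_of_lt_of_le ((Real.exp_pos _).trans_le h0) hg1
  have hgzp : 0 < ‖g z‖ := norm_pos_iff.2 (hg0 z (by linarith))
  have h3 : -A ≤ Real.log ‖g 0‖ := by
    rw [Real.le_log_iff_exp_le hg0p]
    exact h0.trans hg1
  have h4 : Real.exp (-(c2 * A)) ≤ ‖g z‖ := by
    rw [← Real.le_log_iff_exp_le hgzp]
    refine le_trans ?_ h2
    nlinarith
  rw [hfg z hzb, norm_mul]
  have hZn : (Z.length : ℝ) ≤ A / ell + 1 := le_trans (by exact_mod_cast hZl) hn2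
  have h5 : Real.exp (-((A / ell + 1) * c3)) ≤ ‖(Z.map (fun w => bl w z)).prod‖ := by
    refine le_trans (Real.exp_le_exp.2 ?_) h1
    have h6 : (Z.length : ℝ) * c3 ≤ (A / ell + 1) * c3 := by gcongr
    have h7 : (Z.length : ℝ) * c3 = 6 / δ * Z.length + Z.length * Real.log 2 := by
      rw [hc3]
      ring
    linarith
  calc Real.exp (-(((1 / ell + 1) * c3 + c2) * (1 + A)))
      ≤ Real.exp (-((A / ell + 1) * c3) + -(c2 * A)) := by
        apply Real.exp_le_exp.2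
        have h8 : 0 ≤ 1 / ell := by positivity
        have h9 : A / ell = A * (1 / ell) := by ring
        rw [h9]
        have : 0 ≤ A * c3 := by positivity
        have : 0 ≤ 1 / ell * c3 := by positivity
        nlinarith
    _ = Real.exp (-((A / ell + 1) * c3)) * Real.exp (-(c2 * A)) := Real.exp_add _ _
    _ ≤ _ := mul_le_mul h5 h4 (Real.exp_pos _).le (norm_nonneg _)

end Pool.Agent.MP_ae5b4e_an_GD
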