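import Pool.Agent.Lib.Misc72.PoincareMiranda

/-!
# POR (iii), good points (GD), part 5: crossing paths of a rectangle

`crossing`: a left-right path meets a bottom-top path.  `sep`: a component of the open rectangle
minus a left-right path does not touch both horizontal edges.  `front`: its frontier lies in the
path and the edges.
-/

noncomputable section

namespace Pool.Agent.MP_ae5b4e_an_GD

open Complex Set Filter Topology Metric

/-- crossing lemma (copy of `Pool.Agent.MPd01a95.KT.crossing`) -/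
theorem crossing {f g : ℝ → ℂ} (hf : ContinuousOn f (Set.Icc 0 1))
    (hg : ContinuousOn g (Set.Icc 0 1)) (h1 : ∀ u ∈ Set.Icc (0 : ℝ) 1, (f 0).re < (g u).re)
    (h2 : ∀ u ∈ Set.Icc (0 : ℝ) 1, (g u).re < (f 1).re)
    (h3 : ∀ s ∈ Set.Icc (0 : ℝ) 1, (g 0).im < (f s).im)
    (h4 : ∀ s ∈ Set.Icc (0 : ℝ) 1, (f s).im < (g 1).im) :
    ∃ s ∈ Set.Icc (0 : ℝ) 1, ∃ u ∈ Set.Icc (0 : ℝ) 1, f s = g u := by
  have h01 : (0 : ℝ) ≤ 1 := zero_le_one
  let f' : ℝ → ℂ := fun s => f (Set.projIcc 0 1 h01 s)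
  let g' : ℝ → ℂ := fun s => g (Set.projIcc 0 1 h01 s)
  have hf' : Continuous f' := hf.comp_continuous
    (continuous_subtype_val.comp continuous_projIcc) (fun s => (Set.projIcc 0 1 h01 s).2)
  have hg' : Continuous g' := hg.comp_continuous
    (continuous_subtype_val.comp continuous_projIcc) (fun s => (Set.projIcc 0 1 h01 s).2)
  have ef : ∀ s ∈ Set.Icc (0 : ℝ) 1, f' s = f s := by
    intro s hs
    show f (Set.projIcc 0 1 h01 s) = f s
    rw [Set.projIcc_of_mem h01 hs]
  have eg : ∀ s ∈ Set.Icc (0 : ℝ) 1, g' s = g s := by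
    intro s hs
    show g (Set.projIcc 0 1 h01 s) = g s
    rw [Set.projIcc_of_mem h01 hs]
  let F : (Fin 2 → ℝ) → ℂ := fun x => f' (x 0) - g' (x 1)
  have hF : Continuous F :=
    (hf'.comp (continuous_apply 0)).sub (hg'.comp (continuous_apply 1))
  have hre : Continuous fun x => (F x).re := Complex.continuous_re.comp hF
  have him : Continuous fun x => (F x).im := Complex.continuous_im.comp hF
  let A : Fin 2 → Set (Fin 2 → ℝ) := ![{x | (F x).re < 0}, {x | 0 < (F x).im}]
  let B : Fin 2 → Set (Fin 2 → ℝ) := ![{x | 0 < (F x).re}, {x | (F x).im < 0}]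
  have hA : ∀ i, IsOpen (A i) := by
    intro i
    fin_cases i
    · exact isOpen_lt hre continuous_const
    · exact isOpen_lt continuous_const him
  have hB : ∀ i, IsOpen (B i) := by
    intro i
    fin_cases i
    · exact isOpen_lt continuous_const hre
    · exact isOpen_lt him continuous_const
  have hd : ∀ i, ∀ x ∈ Set.Icc (0 : Fin 2 → ℝ) 1, x ∈ A i → x ∈ B i → False := by
    intro i x _ ha hb
    fin_cases i
    · exact lt_asymm (show (F x).re < 0 from ha) (show 0 < (F x).re from hb)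
    · exact lt_asymm (show 0 < (F x).im from ha) (show (F x).im < 0 from hb)
  have hmem : ∀ x ∈ Set.Icc (0 : Fin 2 → ℝ) 1, ∀ i, x i ∈ Set.Icc (0 : ℝ) 1 :=
    fun x hx i => ⟨hx.1 i, hx.2 i⟩
  have m0 : (0 : ℝ) ∈ Set.Icc (0 : ℝ) 1 := ⟨le_rfl, h01⟩
  have m1 : (1 : ℝ) ∈ Set.Icc (0 : ℝ) 1 := ⟨h01, le_rfl⟩
  have hFe : ∀ x ∈ Set.Icc (0 : Fin 2 → ℝ) 1, F x = f (x 0) - g (x 1) := by
    intro x hx
    show f' (x 0) - g' (x 1) = f (x 0) - g (x 1)
    rw [ef _ (hmem x hx 0), eg _ (hmem x hx 1)]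
  have hl : ∀ i, ∀ x ∈ Set.Icc (0 : Fin 2 → ℝ) 1, x i = 0 → x ∈ A i := by
    intro i x hx hi
    fin_cases i
    · show (F x).re < 0
      have hi' : x 0 = 0 := hi
      rw [hFe x hx, hi', Complex.sub_re]
      exact sub_neg.2 (h1 _ (hmem x hx 1))
    · show 0 < (F x).im
      have hi' : x 1 = 0 := hi
      rw [hFe x hx, hi', Complex.sub_im]
      exact sub_pos.2 (h3 _ (hmem x hx 0))
  have hr : ∀ i, ∀ x ∈ Set.Icc (0 : Fin 2 → ℝ) 1, x i = 1 → x ∈ B i := by
    intro i x hx hi
    fin_cases i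
    · show 0 < (F x).re
      have hi' : x 0 = 1 := hi
      rw [hFe x hx, hi', Complex.sub_re]
      exact sub_pos.2 (h2 _ (hmem x hx 1))
    · show (F x).im < 0
      have hi' : x 1 = 1 := hi
      rw [hFe x hx, hi', Complex.sub_im]
      exact sub_neg.2 (h4 _ (hmem x hx 0))
  obtain ⟨x, hx, hxx⟩ := Pool.Agent.Misc72.poincare_miranda A B hA hB hd hl hr
  have hr0 : (F x).re = 0 := by
    have h0 := hxx 0
    have ha : ¬ (F x).re < 0 := h0.1
    have hb : ¬ 0 < (F x).re := h0.2
    exact le_antisymm (not_lt.1 hb) (not_lt.1 ha)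
  have hi0 : (F x).im = 0 := by
    have h0 := hxx 1
    have ha : ¬ 0 < (F x).im := h0.1
    have hb : ¬ (F x).im < 0 := h0.2
    exact le_antisymm (not_lt.1 ha) (not_lt.1 hb)
  have hF0 : F x = 0 := Complex.ext hr0 hi0
  rw [hFe x hx] at hF0
  exact ⟨x 0, hmem x hx 0, x 1, hmem x hx 1, sub_eq_zero.1 hF0⟩

/-- open rectangle -/
def Rc (a b c d : ℝ) : Set ℂ := {z | a < z.re ∧ z.re < b ∧ c < z.im ∧ z.im < d}

theorem isOpen_Rc {a b c d : ℝ} : IsOpen (Rc a b c d) := by
  have h1 := isOpen_lt continuous_const Complex.continuous_re (f := fun _ : ℂ => a)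
  have h2 := isOpen_lt Complex.continuous_re continuous_const (g := fun _ : ℂ => b)
  have h3 := isOpen_lt continuous_const Complex.continuous_im (f := fun _ : ℂ => c)
  have h4 := isOpen_lt Complex.continuous_im continuous_const (g := fun _ : ℂ => d)
  exact h1.inter (h2.inter (h3.inter h4))

theorem closure_Rc {a b c d : ℝ} {z : ℂ} (hz : z ∈ closure (Rc a b c d)) :
    a ≤ z.re ∧ z.re ≤ b ∧ c ≤ z.im ∧ z.im ≤ d := by
  have hcl : IsClosed {z : ℂ | a ≤ z.re ∧ z.re ≤ b ∧ c ≤ z.im ∧ z.im ≤ d} := by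
    have h1 := isClosed_le continuous_const Complex.continuous_re (f := fun _ : ℂ => a)
    have h2 := isClosed_le Complex.continuous_re continuous_const (g := fun _ : ℂ => b)
    have h3 := isClosed_le continuous_const Complex.continuous_im (f := fun _ : ℂ => c)
    have h4 := isClosed_le Complex.continuous_im continuous_const (g := fun _ : ℂ => d)
    exact h1.inter (h2.inter (h3.inter h4))
  have hsub : Rc a b c d ⊆ {z : ℂ | a ≤ z.re ∧ z.re ≤ b ∧ c ≤ z.im ∧ z.im ≤ d} :=
    fun w hw => ⟨hw.1.le, hw.2.1.le, hw.2.2.1.le, hw.2.2.2.le⟩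
  exact closure_minimal hsub hcl hz

theorem bounded_Rc {a b c d : ℝ} : Bornology.IsBounded (Rc a b c d) := by
  refine (isBounded_iff_forall_norm_le).2 ⟨(|a| + |b|) + (|c| + |d|), ?_⟩
  intro z hz
  refine (Complex.norm_le_abs_re_add_abs_im z).trans ?_
  have h1 : |z.re| ≤ |a| + |b| := by
    rw [abs_le]
    constructor
    · linarith [hz.1, neg_abs_le a, abs_nonneg b]
    · linarith [hz.2.1, le_abs_self b, abs_nonneg a]
  have h2 : |z.im| ≤ |c| + |d| := by
    rw [abs_le]
    constructor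
    · linarith [hz.2.2.1, neg_abs_le c, abs_nonneg d]
    · linarith [hz.2.2.2, le_abs_self d, abs_nonneg c]
  linarith

/-- the component of `O` containing `p` -/
theorem comp_frontier {O : Set ℂ} (hO : IsOpen O) {p z : ℂ}
    (hz : z ∈ frontier (connectedComponentIn O p)) : z ∉ O := by
  intro hzO
  have hUo : IsOpen (connectedComponentIn O p) := hO.connectedComponentIn
  have h1 : IsOpen (connectedComponentIn O z) := hO.connectedComponentIn
  have h2 : z ∈ connectedComponentIn O z := mem_connectedComponentIn hzO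
  have h3 : z ∈ closure (connectedComponentIn O p) := frontier_subset_closure hz
  obtain ⟨w, hw1, hw2⟩ := mem_closure_iff.1 h3 _ h1 h2
  have h4 : connectedComponentIn O z = connectedComponentIn O w :=
    connectedComponentIn_eq hw1
  have h5 : connectedComponentIn O p = connectedComponentIn O w :=
    connectedComponentIn_eq hw2
  have h6 : z ∈ connectedComponentIn O p := by rw [h5, ← h4]; exact h2
  rw [hUo.frontier_eq] at hz
  exact hz.2 h6

section

variable {a b c d : ℝ} {G : ℝ → ℂ}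

/-- the rectangle minus the path -/
def Om (a b c d : ℝ) (G : ℝ → ℂ) : Set ℂ := Rc a b c d \ (G '' Icc 0 1)

theorem isOpen_Om (hG : ContinuousOn G (Icc 0 1)) : IsOpen (Om a b c d G) :=
  isOpen_Rc.sdiff (isCompact_Icc.image_of_continuousOn hG).isClosed

/-- the frontier of a component: path and edges -/
theorem front (hG : ContinuousOn G (Icc 0 1)) {p z : ℂ}
    (hz : z ∈ frontier (connectedComponentIn (Om a b c d G) p)) :
    z ∈ G '' Icc 0 1 ∨
      (z ∈ closure (Rc a b c d) ∧ (z.re = a ∨ z.re = b ∨ z.im = c ∨ z.im = d)) := by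
  have h1 := comp_frontier (isOpen_Om hG) hz
  have h2 : z ∈ closure (Rc a b c d) :=
    closure_mono ((connectedComponentIn_subset _ _).trans sdiff_subset)
      (frontier_subset_closure hz)
  by_cases hzG : z ∈ G '' Icc 0 1
  · exact Or.inl hzG
  · right
    refine ⟨h2, ?_⟩
    by_contra hne
    push Not at hne
    obtain ⟨h3, h4, h5, h6⟩ := closure_Rc h2
    exact h1 ⟨⟨lt_of_le_of_ne h3 (Ne.symm hne.1), lt_of_le_of_ne h4 hne.2.1,
      lt_of_le_of_ne h5 (Ne.symm hne.2.2.1), lt_of_le_of_ne h6 hne.2.2.2⟩, hzG⟩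

/-- a component of the rectangle minus a left-right path does not touch both horizontal edges -/
theorem sep (hG : ContinuousOn G (Icc 0 1)) (h0 : (G 0).re ≤ a) (h1 : b ≤ (G 1).re)
    (hc : ∀ s ∈ Icc (0 : ℝ) 1, c < (G s).im) (hd : ∀ s ∈ Icc (0 : ℝ) 1, (G s).im < d) {p : ℂ}
    {zb zt : ℂ} (hb : zb ∈ closure (connectedComponentIn (Om a b c d G) p)) (hb' : zb.im = c)
    (ht : zt ∈ closure (connectedComponentIn (Om a b c d G) p)) (ht' : zt.im = d) : False := by
  set U := connectedComponentIn (Om a b c d G) p with hU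
  have hUo : IsOpen U := (isOpen_Om hG).connectedComponentIn
  have hUs : U ⊆ Om a b c d G := connectedComponentIn_subset _ _
  have hKc : ContinuousOn (fun s => (G s).im) (Icc 0 1) :=
    Complex.continuous_im.comp_continuousOn hG
  have hne : (Icc (0 : ℝ) 1).Nonempty := ⟨0, by simp⟩
  obtain ⟨s1, hs1, hmin⟩ := isCompact_Icc.exists_isMinOn hne hKc
  obtain ⟨s2, hs2, hmax⟩ := isCompact_Icc.exists_isMaxOn hne hKc
  have hob : IsOpen {z : ℂ | z.im < (G s1).im} := isOpen_lt Complex.continuous_im continuous_const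
  have hot : IsOpen {z : ℂ | (G s2).im < z.im} := isOpen_lt continuous_const Complex.continuous_im
  obtain ⟨ub, hub1, hub2⟩ := mem_closure_iff.1 hb _ hob (by
    show zb.im < (G s1).im
    rw [hb']
    exact hc s1 hs1)
  obtain ⟨ut, hut1, hut2⟩ := mem_closure_iff.1 ht _ hot (by
    show (G s2).im < zt.im
    rw [ht']
    exact hd s2 hs2)
  have hconn : IsConnected U := ⟨⟨ub, hub2⟩, isPreconnected_connectedComponentIn⟩
  have hpath : IsPathConnected U := (hUo.isConnected_iff_isPathConnected).1 hconn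
  have hjoin : JoinedIn U ub ut := hpath.joinedIn ub hub2 ut hut2
  set γ := hjoin.somePath with hγ
  have hγm : ∀ u : unitInterval, γ u ∈ U := hjoin.somePath_mem
  set g : ℝ → ℂ := fun u => γ.extend u with hg
  have hgU : ∀ u ∈ Icc (0 : ℝ) 1, g u ∈ U := by
    intro u hu
    simp only [hg]
    rw [γ.extend_apply hu]
    exact hγm _
  have hgc : ContinuousOn g (Icc 0 1) := γ.continuous_extend.continuousOn
  have hg0 : g 0 = ub := by simp [hg]
  have hg1 : g 1 = ut := by simp [hg]
  obtain ⟨s, hs, u, hu, hsu⟩ := crossing hG hgc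
    (fun u hu => lt_of_le_of_lt h0 (hUs (hgU u hu)).1.1)
    (fun u hu => lt_of_lt_of_le (hUs (hgU u hu)).1.2.1 h1)
    (fun s hs => by
      rw [hg0]
      exact lt_of_lt_of_le hub1 (hmin hs))
    (fun s hs => by
      rw [hg1]
      exact lt_of_le_of_lt (hmax hs) hut1)
  have := (hUs (hgU u hu)).2
  rw [← hsu] at this
  exact this ⟨s, hs, rfl⟩

end

end Pool.Agent.MP_ae5b4e_an_GD
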