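import Pool.Agent.Lib.MP_ae5b4e_an_GD.Sep
import Pool.Agent.Lib.MP_ae5b4e_an_GD.Gp

/-!
# POR (iii), good points (GD), part 6: two constants for a path crossing a half annulus

`tc_rect`: rectangle `|Re| < 3`, `|Im| < β < π / 2`, a left-right path where `|f| ≤ ε`:
`|f| ≤ ε^(1/6)` near the centre.  `tc`: the half annulus `e⁻³ r < |z - x| < e³ r`.  `tri`: from a
disc `ball c (|Im c| / 10)` to any point.  `tc_far`: both.  `hmc`: bound `M` at depth `≥ 1`.
`tc33`: the form used in the block HM.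
-/

noncomputable section

namespace Pool.Agent.MP_ae5b4e_an_GD

open Complex Set Filter Topology Metric
open scoped ComplexConjugate
open Pool.Agent.MP_ae5b4e_an_WB (Hm)

/-- the barrier -/
def Hb (β σ : ℝ) (z : ℂ) : ℂ :=
  (σ : ℂ) * I * Complex.sin ((Real.pi / 6 : ℝ) * (z - (σ * β : ℝ) * I))

theorem sin_im (A B : ℝ) :
    (Complex.sin ((A : ℂ) + (B : ℂ) * I)).im = Real.cos A * Real.sinh B := by
  rw [Complex.sin_add_mul_I, ← Complex.ofReal_sin, ← Complex.ofReal_cosh, ← Complex.ofReal_cos,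
    ← Complex.ofReal_sinh]
  simp only [add_im, mul_im, mul_re, ofReal_re, ofReal_im, I_re, I_im]
  ring

theorem Hb_re {β σ : ℝ} (hσ : σ = 1 ∨ σ = -1) (z : ℂ) :
    (Hb β σ z).re = Real.cos (Real.pi / 6 * z.re) * Real.sinh (Real.pi / 6 * (β - σ * z.im)) := by
  have h1 : ((Real.pi / 6 : ℝ) : ℂ) * (z - (σ * β : ℝ) * I) =
      ((Real.pi / 6 * z.re : ℝ) : ℂ) + ((Real.pi / 6 * (z.im - σ * β) : ℝ) : ℂ) * I := by
    apply Complex.ext
    · simp
    · simp
  have h2 := sin_im (Real.pi / 6 * z.re) (Real.pi / 6 * (z.im - σ * β))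
  rw [Hb, h1]
  have h3 : ∀ w : ℂ, ((σ : ℂ) * I * w).re = -σ * w.im := by
    intro w
    simp
  rw [h3, h2]
  rcases hσ with rfl | rfl
  · have : Real.pi / 6 * (z.im - 1 * β) = -(Real.pi / 6 * (β - 1 * z.im)) := by ring
    rw [this, Real.sinh_neg]
    ring
  · have : Real.pi / 6 * (z.im - -1 * β) = Real.pi / 6 * (β - -1 * z.im) := by ring
    rw [this]
    ring

theorem Hb_diff (β σ : ℝ) : Differentiable ℂ (Hb β σ) := by
  unfold Hb
  fun_prop

section

variable {β ε : ℝ} {f : ℂ → ℂ} {G : ℝ → ℂ} {p : ℂ}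

theorem tc_core {σ : ℝ} (hσ : σ = 1 ∨ σ = -1) (hβ : 3 / 2 ≤ β) (hβ' : β < Real.pi / 2)
    (hε0 : 0 < ε) (hε1 : ε ≤ 1)
    (hf : ∀ z ∈ closure (Rc (-3) 3 (-β) β), DifferentiableAt ℂ f z)
    (hb : ∀ z ∈ closure (Rc (-3) 3 (-β) β), ‖f z‖ ≤ 1) (hG : ContinuousOn G (Icc 0 1))
    (hc : ∀ s ∈ Icc (0 : ℝ) 1, |(G s).im| < β)
    (hε : ∀ s ∈ Icc (0 : ℝ) 1, |(G s).re| ≤ 3 → ‖f (G s)‖ ≤ ε) (hp : |p.re| ≤ 1 / 5)
    (hp' : |p.im| ≤ 1 / 5) (hpO : p ∈ Om (-3) 3 (-β) β G)
    (hmiss : ∀ z ∈ closure (connectedComponentIn (Om (-3) 3 (-β) β G) p), z.im ≠ -σ * β) :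
    ‖f p‖ ≤ ε ^ (1 / 6 : ℝ) := by
  set U := connectedComponentIn (Om (-3) 3 (-β) β G) p with hU
  have hpi := Real.pi_gt_d4
  have hpi2 := Real.pi_lt_d4
  set S : ℝ := Real.sinh (Real.pi / 6 * (2 * β)) with hS
  have hSpos : 0 < S := Real.sinh_pos_iff.2 (by positivity)
  set lg : ℝ := Real.log ε with hlg
  have hlg0 : lg ≤ 0 := Real.log_nonpos hε0.le hε1
  set F : ℂ → ℂ := fun z => f z * Complex.exp (-((lg / S : ℝ) : ℂ) * Hb β σ z) with hF
  have hFn : ∀ z : ℂ, ‖F z‖ = ‖f z‖ * Real.exp (-(lg / S) * (Hb β σ z).re) := by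
    intro z
    simp only [hF]
    rw [norm_mul, Complex.norm_exp]
    congr 2
    rw [← Complex.ofReal_neg, Complex.re_ofReal_mul]
  have hUR : closure U ⊆ closure (Rc (-3) 3 (-β) β) :=
    closure_mono ((connectedComponentIn_subset _ _).trans sdiff_subset)
  have hFd : DiffContOnCl ℂ F U := by
    apply DifferentiableOn.diffContOnCl
    intro z hz
    have h1 := hf z (hUR hz)
    have h2 : DifferentiableAt ℂ (fun z => Complex.exp (-((lg / S : ℝ) : ℂ) * Hb β σ z)) z := by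
      have := (Hb_diff β σ) z
      fun_prop
    exact (h1.mul h2).differentiableWithinAt
  have hσ2 : σ * σ = 1 := by rcases hσ with rfl | rfl <;> norm_num
  have hσabs : ∀ y : ℝ, |y| ≤ β → 0 ≤ β - σ * y ∧ β - σ * y ≤ 2 * β := by
    intro y hy
    rw [abs_le] at hy
    rcases hσ with rfl | rfl
    · constructor <;> linarith [hy.1, hy.2]
    · constructor <;> linarith [hy.1, hy.2]
  have hfr : ∀ z ∈ frontier U, ‖F z‖ ≤ 1 := by
    intro z hz
    have hzcl : z ∈ closure U := frontier_subset_closure hz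
    have hzR := hUR hzcl
    obtain ⟨c1, c2, c3, c4⟩ := closure_Rc hzR
    rw [hFn z, Hb_re hσ]
    rcases front hG hz with ⟨s, hs, rfl⟩ | ⟨-, hedge⟩
    · have h1 := hε s hs (abs_le.2 ⟨c1, c2⟩)
      have h2 := hσabs (G s).im (hc s hs).le
      have h3 : Real.cos (Real.pi / 6 * (G s).re) *
          Real.sinh (Real.pi / 6 * (β - σ * (G s).im)) ≤ S := by
        have h4 : Real.sinh (Real.pi / 6 * (β - σ * (G s).im)) ≤ S := by
          rw [hS]
          apply Real.sinh_le_sinh.2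
          gcongr
          exact h2.2
        have h5 : 0 ≤ Real.sinh (Real.pi / 6 * (β - σ * (G s).im)) :=
          Real.sinh_nonneg_iff.2 (mul_nonneg (by positivity) h2.1)
        have h6 := Real.cos_le_one (Real.pi / 6 * (G s).re)
        nlinarith
      have h4 : -(lg / S) * (Real.cos (Real.pi / 6 * (G s).re) *
          Real.sinh (Real.pi / 6 * (β - σ * (G s).im))) ≤ -lg := by
        have h5 : 0 ≤ -(lg / S) := by
          rw [← neg_div]
          exact div_nonneg (by linarith) hSpos.le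
        calc -(lg / S) * (Real.cos (Real.pi / 6 * (G s).re) *
            Real.sinh (Real.pi / 6 * (β - σ * (G s).im))) ≤ -(lg / S) * S := by gcongr
          _ = -lg := by field_simp
      calc ‖f (G s)‖ * Real.exp (-(lg / S) * (Real.cos (Real.pi / 6 * (G s).re) *
            Real.sinh (Real.pi / 6 * (β - σ * (G s).im)))) ≤ ε * Real.exp (-lg) := by gcongr
        _ = 1 := by
          rw [Real.exp_neg, hlg, Real.exp_log hε0]
          field_simp
    · have h0 : Real.cos (Real.pi / 6 * z.re) * Real.sinh (Real.pi / 6 * (β - σ * z.im)) = 0 := by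
        rcases hedge with h | h | h | h
        · have : Real.pi / 6 * z.re = -(Real.pi / 2) := by rw [h]; ring
          rw [this, Real.cos_neg, Real.cos_pi_div_two, zero_mul]
        · have : Real.pi / 6 * z.re = Real.pi / 2 := by rw [h]; ring
          rw [this, Real.cos_pi_div_two, zero_mul]
        · rcases hσ with rfl | rfl
          · exact absurd (by rw [h]; ring) (hmiss z hzcl)
          · have : Real.pi / 6 * (β - -1 * z.im) = 0 := by rw [h]; ring
            rw [this, Real.sinh_zero, mul_zero]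
        · rcases hσ with rfl | rfl
          · have : Real.pi / 6 * (β - 1 * z.im) = 0 := by rw [h]; ring
            rw [this, Real.sinh_zero, mul_zero]
          · exact absurd (by rw [h]; ring) (hmiss z hzcl)
      rw [h0, mul_zero, Real.exp_zero, mul_one]
      exact hb z hzR
  have hpU : p ∈ U := mem_connectedComponentIn hpO
  have hmax := Complex.norm_le_of_forall_mem_frontier_norm_le
    (bounded_Rc.subset ((connectedComponentIn_subset _ _).trans sdiff_subset)) hFd hfr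
    (subset_closure hpU)
  rw [hFn p, Hb_re hσ] at hmax
  set m : ℝ := Real.cos (Real.pi / 6 * p.re) * Real.sinh (Real.pi / 6 * (β - σ * p.im)) with hm
  have hS4 : S ≤ 3.7 := by
    rw [hS, Real.sinh_eq]
    have h1 : Real.pi / 6 * (2 * β) ≤ 2 := by nlinarith
    have h2 : Real.exp (Real.pi / 6 * (2 * β)) ≤ Real.exp 2 := Real.exp_le_exp.2 h1
    have h3 : Real.exp 2 ≤ 7.39 := by
      have h4 : Real.exp 2 = Real.exp 1 * Real.exp 1 := by rw [← Real.exp_add]; norm_num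
      have h5 := Real.exp_one_lt_d9
      have h6 := Real.exp_pos 1
      rw [h4]
      nlinarith
    have h4 := Real.exp_pos (-(Real.pi / 6 * (2 * β)))
    linarith
  have hm2 : 1 / 6 ≤ m / S := by
    rw [le_div_iff₀ hSpos]
    have h1 : 1 - (Real.pi / 6 * p.re) ^ 2 / 2 ≤ Real.cos (Real.pi / 6 * p.re) :=
      Real.one_sub_sq_div_two_le_cos
    have h2 : |Real.pi / 6 * p.re| ≤ 0.11 := by
      rw [abs_mul, abs_of_pos (by positivity : (0 : ℝ) < Real.pi / 6)]
      nlinarith [abs_nonneg p.re]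
    have h3 : (Real.pi / 6 * p.re) ^ 2 ≤ 0.11 ^ 2 := by
      rw [← sq_abs]
      gcongr
    have h4 : 0.99 ≤ Real.cos (Real.pi / 6 * p.re) := by
      norm_num at h3
      linarith
    have h5 : 1.3 ≤ β - σ * p.im := by
      rw [abs_le] at hp'
      rcases hσ with rfl | rfl
      · linarith [hp'.2]
      · linarith [hp'.1]
    have h6 : 0.68 ≤ Real.pi / 6 * (β - σ * p.im) := by nlinarith
    have h7 : Real.pi / 6 * (β - σ * p.im) ≤ Real.sinh (Real.pi / 6 * (β - σ * p.im)) :=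
      Real.self_le_sinh_iff.2 (by linarith)
    have h8 : 0.99 * 0.68 ≤ m := by
      rw [hm]
      have h9 : (0.68 : ℝ) ≤ Real.sinh (Real.pi / 6 * (β - σ * p.im)) := by linarith
      exact mul_le_mul h4 h9 (by norm_num) (by linarith)
    norm_num at h8
    linarith
  have h1 : ‖f p‖ ≤ Real.exp (lg / S * m) := by
    have h2 : Real.exp (-(lg / S) * m) * Real.exp (lg / S * m) = 1 := by
      rw [← Real.exp_add]
      have : -(lg / S) * m + lg / S * m = 0 := by ring
      rw [this, Real.exp_zero]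
    calc ‖f p‖ = ‖f p‖ * Real.exp (-(lg / S) * m) * Real.exp (lg / S * m) := by
          rw [mul_assoc, h2, mul_one]
      _ ≤ 1 * Real.exp (lg / S * m) := by gcongr
      _ = Real.exp (lg / S * m) := one_mul _
  refine h1.trans ?_
  rw [Real.rpow_def_of_pos hε0]
  apply Real.exp_le_exp.2
  have h2 : lg / S * m = lg * (m / S) := by ring
  rw [h2]
  nlinarith

theorem tc_rect (hβ : 3 / 2 ≤ β) (hβ' : β < Real.pi / 2) (hε0 : 0 < ε) (hε1 : ε ≤ 1)
    (hf : ∀ z ∈ closure (Rc (-3) 3 (-β) β), DifferentiableAt ℂ f z)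
    (hb : ∀ z ∈ closure (Rc (-3) 3 (-β) β), ‖f z‖ ≤ 1) (hG : ContinuousOn G (Icc 0 1))
    (h0 : (G 0).re ≤ -3) (h1 : 3 ≤ (G 1).re) (hc : ∀ s ∈ Icc (0 : ℝ) 1, |(G s).im| < β)
    (hε : ∀ s ∈ Icc (0 : ℝ) 1, |(G s).re| ≤ 3 → ‖f (G s)‖ ≤ ε) (hp : |p.re| ≤ 1 / 5)
    (hp' : |p.im| ≤ 1 / 5) : ‖f p‖ ≤ ε ^ (1 / 6 : ℝ) := by
  have hεr : ε ≤ ε ^ (1 / 6 : ℝ) := by
    calc ε = ε ^ (1 : ℝ) := (Real.rpow_one ε).symm
      _ ≤ ε ^ (1 / 6 : ℝ) := Real.rpow_le_rpow_of_exponent_ge hε0 hε1 (by norm_num)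
  by_cases hpG : p ∈ G '' Icc 0 1
  · obtain ⟨s, hs, rfl⟩ := hpG
    exact (hε s hs (by linarith)).trans hεr
  · have hpR : p ∈ Rc (-3) 3 (-β) β := by
      rw [abs_le] at hp hp'
      refine ⟨?_, ?_, ?_, ?_⟩ <;> linarith [hp.1, hp.2, hp'.1, hp'.2]
    have hpO : p ∈ Om (-3) 3 (-β) β G := ⟨hpR, hpG⟩
    have hc1 : ∀ s ∈ Icc (0 : ℝ) 1, -β < (G s).im := fun s hs => (abs_lt.1 (hc s hs)).1
    have hc2 : ∀ s ∈ Icc (0 : ℝ) 1, (G s).im < β := fun s hs => (abs_lt.1 (hc s hs)).2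
    by_cases hbot : ∃ z ∈ closure (connectedComponentIn (Om (-3) 3 (-β) β G) p), z.im = -β
    · obtain ⟨zb, hzb, hzb'⟩ := hbot
      refine tc_core (σ := -1) (Or.inr rfl) hβ hβ' hε0 hε1 hf hb hG hc hε hp hp' hpO ?_
      intro z hz hzi
      have hzi' : z.im = β := by rw [hzi]; ring
      exact sep hG h0 h1 hc1 hc2 hzb hzb' hz hzi'
    · push Not at hbot
      refine tc_core (σ := 1) (Or.inl rfl) hβ hβ' hε0 hε1 hf hb hG hc hε hp hp' hpO ?_
      intro z hz hzi
      exact hbot z hz (by rw [hzi]; ring)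

end

/-- two constants for a path crossing the half annulus `e⁻³ r < |z - x| < e³ r` -/
theorem tc {g : ℂ → ℂ} (hg : DifferentiableOn ℂ g Hm) (hb : ∀ z ∈ Hm, ‖g z‖ ≤ 1) {ε : ℝ}
    (hε0 : 0 < ε) (hε1 : ε ≤ 1) {x r : ℝ} (hr : 0 < r) {p : ℝ → ℂ} {t0 t1 : ℝ}
    (hp : ContinuousOn p (uIcc t0 t1)) (hpH : ∀ s ∈ uIcc t0 t1, (p s).im < 0)
    (h0 : ‖p t0 - x‖ ≤ Real.exp (-3) * r) (h1 : Real.exp 3 * r ≤ ‖p t1 - x‖)
    (hε : ∀ s ∈ uIcc t0 t1, Real.exp (-3) * r ≤ ‖p s - x‖ → ‖p s - x‖ ≤ Real.exp 3 * r →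
      ‖g (p s)‖ ≤ ε) {z : ℂ} (hz : ‖z - (x - r * I)‖ ≤ r / 10) : ‖g z‖ ≤ ε ^ (1 / 6 : ℝ) := by
  have hpi := Real.pi_gt_d4
  have hrc : (r : ℂ) ≠ 0 := by exact_mod_cast hr.ne'
  set W : ℂ → ℂ := fun z => I * (z - x) / r with hW
  have hWre : ∀ z : ℂ, (W z).re = -z.im / r := by
    intro z
    simp only [hW]
    rw [Complex.div_ofReal_re]
    simp
  have hWn : ∀ z : ℂ, ‖W z‖ = ‖z - x‖ / r := by
    intro z
    simp only [hW, norm_div, norm_mul, norm_I, one_mul, norm_real, Real.norm_of_nonneg hr.le]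
  set G : ℝ → ℂ := fun s => Complex.log (W (p (t0 + s * (t1 - t0)))) with hG
  have hmem : ∀ s ∈ Icc (0 : ℝ) 1, t0 + s * (t1 - t0) ∈ uIcc t0 t1 := by
    intro s hs
    rcases le_total t0 t1 with h | h
    · rw [uIcc_of_le h]
      constructor <;> nlinarith [hs.1, hs.2]
    · rw [uIcc_of_ge h]
      constructor <;> nlinarith [hs.1, hs.2]
  have hWpos : ∀ s ∈ Icc (0 : ℝ) 1, 0 < (W (p (t0 + s * (t1 - t0)))).re := by
    intro s hs
    rw [hWre]
    exact div_pos (by linarith [hpH _ (hmem s hs)]) hr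
  have hWne : ∀ s ∈ Icc (0 : ℝ) 1, W (p (t0 + s * (t1 - t0))) ≠ 0 := by
    intro s hs h
    have := hWpos s hs
    rw [h] at this
    simp at this
  have hGc : ContinuousOn G (Icc 0 1) := by
    have h2 : ContinuousOn (fun s : ℝ => W (p (t0 + s * (t1 - t0)))) (Icc 0 1) := by
      have h3 : ContinuousOn (fun s : ℝ => p (t0 + s * (t1 - t0))) (Icc 0 1) :=
        hp.comp (by fun_prop) hmem
      have h4 : Continuous W := by
        simp only [hW]
        fun_prop
      exact h4.comp_continuousOn h3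
    exact h2.clog (fun s hs => Or.inl (hWpos s hs))
  have hGre : ∀ s ∈ Icc (0 : ℝ) 1, (G s).re = Real.log (‖p (t0 + s * (t1 - t0)) - x‖ / r) := by
    intro s _
    simp only [hG]
    rw [Complex.log_re, hWn]
  have hGim : ∀ s ∈ Icc (0 : ℝ) 1, |(G s).im| < Real.pi / 2 := by
    intro s hs
    simp only [hG]
    rw [Complex.log_im, Complex.abs_arg_lt_pi_div_two_iff]
    exact Or.inl (hWpos s hs)
  have hne : (Icc (0 : ℝ) 1).Nonempty := ⟨0, by simp⟩
  have hGic : ContinuousOn (fun s => |(G s).im|) (Icc 0 1) :=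
    (Complex.continuous_im.comp_continuousOn hGc).abs
  obtain ⟨sm, hsm, hmax⟩ := isCompact_Icc.exists_isMaxOn hne hGic
  set β : ℝ := max (3 / 2) ((|(G sm).im| + Real.pi / 2) / 2) with hβ
  have hβ1 : 3 / 2 ≤ β := le_max_left _ _
  have hβ2 : β < Real.pi / 2 := by
    apply max_lt
    · linarith
    · linarith [hGim sm hsm]
  have hβ3 : ∀ s ∈ Icc (0 : ℝ) 1, |(G s).im| < β := by
    intro s hs
    have h2 : |(G s).im| ≤ |(G sm).im| := hmax hs
    have h3 : (|(G sm).im| + Real.pi / 2) / 2 ≤ β := le_max_right _ _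
    linarith [hGim sm hsm]
  set E : ℂ → ℂ := fun u => x - r * I * Complex.exp u with hE
  have hEW : ∀ z : ℂ, z.im < 0 → E (Complex.log (W z)) = z := by
    intro z hz
    have h2 : W z ≠ 0 := by
      intro h
      have h3 := hWre z
      rw [h, zero_re] at h3
      have h4 : 0 < -z.im / r := div_pos (by linarith) hr
      linarith
    simp only [hE]
    rw [Complex.exp_log h2]
    simp only [hW]
    have h5 : (x : ℂ) - r * I * (I * (z - x) / r) = x - (I * I) * (z - x) * (r / r) := by ring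
    rw [h5, div_self hrc, I_mul_I]
    ring
  have hEim : ∀ u : ℂ, |u.im| ≤ β → (E u).im < 0 := by
    intro u hu
    have h2 : (E u).im = -(r * (Complex.exp u).re) := by
      simp [hE]
    rw [h2, Complex.exp_re]
    have h3 : 0 < Real.cos u.im := by
      apply Real.cos_pos_of_mem_Ioo
      rw [abs_le] at hu
      constructor <;> linarith [hu.1, hu.2]
    have h4 := Real.exp_pos u.re
    have : 0 < r * (Real.exp u.re * Real.cos u.im) := by positivity
    linarith
  have hcl : ∀ u ∈ closure (Rc (-3) 3 (-β) β), |u.im| ≤ β := by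
    intro u hu
    obtain ⟨-, -, c3, c4⟩ := closure_Rc hu
    exact abs_le.2 ⟨c3, c4⟩
  have hHo : IsOpen Hm := isOpen_lt Complex.continuous_im continuous_const
  have hfd : ∀ u ∈ closure (Rc (-3) 3 (-β) β), DifferentiableAt ℂ (fun u => g (E u)) u := by
    intro u hu
    have h2 : DifferentiableAt ℂ g (E u) :=
      hg.differentiableAt (hHo.mem_nhds (hEim u (hcl u hu)))
    have h3 : DifferentiableAt ℂ E u := by
      simp only [hE]
      fun_prop
    exact DifferentiableAt.comp (g := g) u h2 h3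
  have hfb : ∀ u ∈ closure (Rc (-3) 3 (-β) β), ‖(fun u => g (E u)) u‖ ≤ 1 :=
    fun u hu => hb _ (hEim u (hcl u hu))
  have hGe : ∀ s ∈ Icc (0 : ℝ) 1, E (G s) = p (t0 + s * (t1 - t0)) :=
    fun s hs => hEW _ (hpH _ (hmem s hs))
  have hpn : ∀ s ∈ Icc (0 : ℝ) 1, 0 < ‖p (t0 + s * (t1 - t0)) - x‖ / r := by
    intro s hs
    rw [← hWn]
    exact norm_pos_iff.2 (hWne s hs)
  have hzim : z.im < 0 := by
    have h2 := (Complex.abs_im_le_norm (z - (x - r * I))).trans hz
    simp only [sub_im, mul_im, ofReal_re, ofReal_im, I_re, I_im] at h2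
    rw [abs_le] at h2
    linarith [h2.2]
  have hlogz : ‖Complex.log (W z)‖ ≤ 1 / 5 := by
    have h2 : W z = 1 + I * (z - (x - r * I)) / r := by
      simp only [hW]
      have h3 : I * (z - x) / r = (I * (z - (x - r * I)) - (I * I) * r) / r := by ring
      rw [h3, I_mul_I, sub_div]
      have h4 : -1 * (r : ℂ) / r = -1 := by field_simp
      rw [h4]
      ring
    have h3 : ‖I * (z - (x - r * I)) / r‖ ≤ 1 / 10 := by
      rw [norm_div, norm_mul, norm_I, one_mul, norm_real, Real.norm_of_nonneg hr.le,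
        div_le_iff₀ hr]
      linarith
    rw [h2]
    have h4 := Complex.norm_log_one_add_half_le_self (h3.trans (by norm_num))
    linarith
  have hfin := tc_rect (f := fun u => g (E u)) (G := G) (p := Complex.log (W z)) hβ1 hβ2 hε0 hε1
    hfd hfb hGc (by
      rw [hGre 0 (by simp)]
      have h2 : ‖p (t0 + 0 * (t1 - t0)) - x‖ / r ≤ Real.exp (-3) := by
        rw [zero_mul, add_zero, div_le_iff₀ hr]
        exact h0
      have h3 := Real.log_le_log (hpn 0 (by simp)) h2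
      rwa [Real.log_exp] at h3) (by
      rw [hGre 1 (by simp)]
      have h2 : Real.exp 3 ≤ ‖p (t0 + 1 * (t1 - t0)) - x‖ / r := by
        rw [le_div_iff₀ hr]
        have h4 : t0 + 1 * (t1 - t0) = t1 := by ring
        rw [h4]
        exact h1
      have h3 := Real.log_le_log (Real.exp_pos 3) h2
      rwa [Real.log_exp] at h3) hβ3 (by
      intro s hs hre
      rw [hGe s hs]
      rw [hGre s hs, abs_le] at hre
      have h2 := hpn s hs
      apply hε _ (hmem s hs)
      · have h3 := (Real.le_log_iff_exp_le h2).1 hre.1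
        rwa [le_div_iff₀ hr] at h3
      · have h3 := (Real.log_le_iff_le_exp h2).1 hre.2
        rwa [div_le_iff₀ hr] at h3)
    ((Complex.abs_re_le_norm _).trans hlogz) ((Complex.abs_im_le_norm _).trans hlogz)
  rwa [hEW z hzim] at hfin

/-- three circles in the unit disc -/
theorem three {f : ℂ → ℂ} (hf : DifferentiableOn ℂ f (ball 0 1))
    (hb : ∀ z ∈ ball (0 : ℂ) 1, ‖f z‖ ≤ 1) {ρ0 η : ℝ} (hρ0 : 0 < ρ0) (hη0 : 0 < η) (hη1 : η ≤ 1)
    (hsm : ∀ z : ℂ, ‖z‖ ≤ ρ0 → ‖f z‖ ≤ η) {ζ : ℂ} (h1 : ρ0 < ‖ζ‖) (h2 : ‖ζ‖ < 1) :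
    ‖f ζ‖ ≤ η ^ (1 / 2 * (Real.log ‖ζ‖ / Real.log ρ0)) := by
  have hζ0 : 0 < ‖ζ‖ := hρ0.trans h1
  set L : ℝ := Real.log ‖ζ‖ with hL
  have hL0 : L < 0 := Real.log_neg hζ0 h2
  set l : ℝ := Real.log ρ0 with hl
  have hlL : l < L := Real.log_lt_log hρ0 h1
  have hul : l < L / 2 := by linarith
  have hexp : ∀ s : ℂ, s.re < 0 → Complex.exp s ∈ ball (0 : ℂ) 1 := by
    intro s hs
    rw [mem_ball_zero_iff, Complex.norm_exp, ← Real.exp_zero]
    exact Real.exp_lt_exp.2 hs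
  have hFd : ∀ s : ℂ, s.re < 0 → DifferentiableAt ℂ (fun s => f (Complex.exp s)) s := by
    intro s hs
    exact DifferentiableAt.comp (g := f) s (hf.differentiableAt (isOpen_ball.mem_nhds (hexp s hs)))
      (by fun_prop)
  have hd : DiffContOnCl ℂ (fun s => f (Complex.exp s))
      (Complex.HadamardThreeLines.verticalStrip l (L / 2)) := by
    apply DifferentiableOn.diffContOnCl
    intro s hs
    have h3 : s.re ≤ L / 2 := by
      have hcl : IsClosed {z : ℂ | z.re ≤ L / 2} := isClosed_le Complex.continuous_re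
        continuous_const
      have hsub : Complex.HadamardThreeLines.verticalStrip l (L / 2) ⊆ {z : ℂ | z.re ≤ L / 2} := by
        intro w hw
        exact (mem_Ioo.1 hw).2.le
      exact closure_minimal hsub hcl hs
    exact (hFd s (by linarith)).differentiableWithinAt
  have hB : BddAbove ((norm ∘ fun s => f (Complex.exp s)) ''
      Complex.HadamardThreeLines.verticalClosedStrip l (L / 2)) := by
    refine ⟨1, ?_⟩
    rintro _ ⟨s, hs, rfl⟩
    exact hb _ (hexp s (by linarith [(mem_Icc.1 hs).2]))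
  have key := Complex.HadamardThreeLines.norm_le_interp_of_mem_verticalClosedStrip'
    (f := fun s => f (Complex.exp s)) (z := Complex.log ζ) (a := η) (b := 1) hul (by
      show (Complex.log ζ).re ∈ Icc l (L / 2)
      rw [Complex.log_re]
      exact ⟨hlL.le, by linarith⟩) hd hB (by
      intro s hs
      have hs' : s.re = l := hs
      apply hsm
      rw [Complex.norm_exp, hs', hl, Real.exp_log hρ0]) (by
      intro s hs
      have hs' : s.re = L / 2 := hs
      exact hb _ (hexp s (by linarith)))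
  rw [Complex.log_re, Complex.exp_log (norm_pos_iff.1 hζ0), Real.one_rpow, mul_one] at key
  refine key.trans ?_
  apply Real.rpow_le_rpow_of_exponent_ge hη0 hη1
  have h3 : 1 - (L - l) / (L / 2 - l) = (-L / 2) / (L / 2 - l) := by
    have h5 : L / 2 - l ≠ 0 := by linarith
    rw [eq_div_iff h5, sub_mul, one_mul, div_mul_cancel₀ _ h5]
    ring
  rw [← hL, h3]
  have h4 : 1 / 2 * (L / l) = (-L / 2) / (-l) := by
    have : l ≠ 0 := by linarith
    field_simp
  rw [h4]
  have h6 : 0 ≤ -L / 2 := by linarith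
  have h7 : 0 < L / 2 - l := by linarith
  have h8 : L / 2 - l ≤ -l := by linarith
  exact div_le_div_of_nonneg_left h6 h7 h8

/-- from the disc `ball c (|Im c| / 10)` to any point -/
theorem tri {g : ℂ → ℂ} (hg : DifferentiableOn ℂ g Hm) (hb : ∀ z ∈ Hm, ‖g z‖ ≤ 1) {η : ℝ}
    (hη0 : 0 < η) (hη1 : η ≤ 1) {c : ℂ} (hc : c.im < 0)
    (hs : ∀ z : ℂ, ‖z - c‖ ≤ -c.im / 10 → ‖g z‖ ≤ η) {z : ℂ} (hz : z.im < 0) :
    ‖g z‖ ≤ η ^ (z.im * c.im / ‖z - conj c‖ ^ 2 / 4) := by
  have hden : ∀ u : ℂ, u ∈ ball (0 : ℂ) 1 → 1 - u ≠ 0 := by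
    intro u hu h
    rw [mem_ball_zero_iff] at hu
    have : u = 1 := (sub_eq_zero.1 h).symm
    rw [this, norm_one] at hu
    exact lt_irrefl _ hu
  set F : ℂ → ℂ := fun u => g ((c - conj c * u) / (1 - u)) with hF
  have hmap : ∀ u ∈ ball (0 : ℂ) 1, (c - conj c * u) / (1 - u) ∈ Hm := by
    intro u hu
    show ((c - conj c * u) / (1 - u)).im < 0
    have h1 := hden u hu
    rw [mem_ball_zero_iff] at hu
    have h2 : ((c - conj c * u) / (1 - u)).im =
        c.im * (1 - Complex.normSq u) / Complex.normSq (1 - u) := by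
      rw [Complex.div_im]
      simp only [Complex.normSq_apply, sub_re, sub_im, mul_re, mul_im, conj_re, conj_im, one_re,
        one_im]
      ring
    rw [h2]
    have h3 : Complex.normSq u < 1 := by
      rw [Complex.normSq_eq_norm_sq]
      nlinarith [norm_nonneg u]
    have h4 : 0 < Complex.normSq (1 - u) := Complex.normSq_pos.2 h1
    apply div_neg_of_neg_of_pos _ h4
    nlinarith
  have hFd : DifferentiableOn ℂ F (ball 0 1) := by
    refine hg.comp ?_ hmap
    intro u hu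
    have h1 := hden u hu
    have h2 : DifferentiableAt ℂ (fun u : ℂ => (c - conj c * u) / (1 - u)) u := by
      fun_prop (disch := exact h1)
    exact h2.differentiableWithinAt
  have hFb : ∀ u ∈ ball (0 : ℂ) 1, ‖F u‖ ≤ 1 := fun u hu => hb _ (hmap u hu)
  have hFs : ∀ u : ℂ, ‖u‖ ≤ 1 / 21 → ‖F u‖ ≤ η := by
    intro u hu
    have hub : u ∈ ball (0 : ℂ) 1 := by
      rw [mem_ball_zero_iff]
      linarith
    have h1 := hden u hub
    apply hs
    have h2 : (c - conj c * u) / (1 - u) - c = (c - conj c) * u / (1 - u) := by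
      field_simp
      ring
    have h3 : ‖c - conj c‖ = -(2 * c.im) := by
      rw [Complex.sub_conj, norm_mul, norm_I, mul_one, norm_real, Real.norm_eq_abs,
        abs_of_neg (by linarith)]
    have h4 : 20 / 21 ≤ ‖1 - u‖ := by
      have := norm_sub_norm_le (1 : ℂ) u
      rw [norm_one] at this
      linarith
    rw [h2, norm_div, norm_mul, h3, div_le_iff₀ (by linarith)]
    nlinarith [norm_nonneg u]
  set ζ : ℂ := (z - c) / (z - conj c) with hζ
  have a1 := den_ne hz hc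
  have a2 := den_ne hc hc
  have hinv : F ζ = g z := by
    have e1 : (1 - ζ) * (z - conj c) = c - conj c := by
      rw [hζ, sub_mul, div_mul_cancel₀ _ a1]
      ring
    have a3 : 1 - ζ ≠ 0 := by
      intro h
      rw [h, zero_mul] at e1
      exact a2 e1.symm
    have e2 : (c - conj c * ζ) / (1 - ζ) = z := by
      rw [div_eq_iff a3]
      have e3 : ζ * (z - conj c) = z - c := by
        rw [hζ, div_mul_cancel₀ _ a1]
      linear_combination e3
    simp only [hF]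
    rw [e2]
  set κ : ℝ := z.im * c.im / ‖z - conj c‖ ^ 2 with hκ
  have hn : 0 < ‖z - conj c‖ := norm_pos_iff.2 a1
  have hprod : 0 < z.im * c.im := mul_pos_of_neg_of_neg hz hc
  have hκ0 : 0 < κ := by positivity
  have hζn : ‖ζ‖ ^ 2 = 1 - 4 * κ := by
    rw [hζ, mob_norm hz hc, hκ]
    ring
  have hκ1 : κ ≤ 1 / 4 := by nlinarith [sq_nonneg ‖ζ‖]
  rw [← hinv]
  rcases le_or_gt ‖ζ‖ (1 / 21) with h | h
  · refine (hFs ζ h).trans ?_
    calc η = η ^ (1 : ℝ) := (Real.rpow_one η).symm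
      _ ≤ η ^ (κ / 4) := Real.rpow_le_rpow_of_exponent_ge hη0 hη1 (by linarith)
  · have hζ1 : ‖ζ‖ < 1 := by nlinarith [norm_nonneg ζ]
    refine (three hFd hFb (by norm_num) hη0 hη1 hFs h hζ1).trans ?_
    apply Real.rpow_le_rpow_of_exponent_ge hη0 hη1
    have hζ0 : 0 < ‖ζ‖ := by linarith
    have h1 : Real.log ‖ζ‖ ≤ -(2 * κ) := by
      have h2 : Real.log (‖ζ‖ ^ 2) ≤ ‖ζ‖ ^ 2 - 1 := Real.log_le_sub_one_of_pos (by positivity)
      rw [Real.log_pow, hζn] at h2
      push_cast at h2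
      linarith
    have h2 : Real.log (1 / 21) = -Real.log 21 := by rw [one_div, Real.log_inv]
    have h3 : Real.log 21 ≤ 4 := by
      rw [Real.log_le_iff_le_exp (by norm_num)]
      have h4 : Real.exp 4 = (Real.exp 1) ^ 4 := by rw [← Real.exp_nat_mul]; norm_num
      rw [h4]
      have h5 := Real.exp_one_gt_d9
      calc (21 : ℝ) ≤ 2.7 ^ 4 := by norm_num
        _ ≤ (Real.exp 1) ^ 4 := by
          gcongr
          linarith
    have h4 : 0 < Real.log 21 := Real.log_pos (by norm_num)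
    rw [h2]
    have h5 : 1 / 2 * (Real.log ‖ζ‖ / -Real.log 21) = (-Real.log ‖ζ‖ / 2) / Real.log 21 := by
      field_simp
    rw [h5, le_div_iff₀ h4]
    nlinarith

/-- path crossing a half annulus about `x` and the value at a far point -/
theorem tc_far {g : ℂ → ℂ} (hg : DifferentiableOn ℂ g Hm) (hb : ∀ z ∈ Hm, ‖g z‖ ≤ 1) {ε : ℝ}
    (hε0 : 0 < ε) (hε1 : ε ≤ 1) {x r : ℝ} (hr : 0 < r) {p : ℝ → ℂ} {t0 t1 : ℝ}
    (hp : ContinuousOn p (uIcc t0 t1)) (hpH : ∀ s ∈ uIcc t0 t1, (p s).im < 0)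
    (h0 : ‖p t0 - x‖ ≤ Real.exp (-3) * r) (h1 : Real.exp 3 * r ≤ ‖p t1 - x‖)
    (hε : ∀ s ∈ uIcc t0 t1, Real.exp (-3) * r ≤ ‖p s - x‖ → ‖p s - x‖ ≤ Real.exp 3 * r →
      ‖g (p s)‖ ≤ ε) {z : ℂ} (hz : z.im < 0) :
    ‖g z‖ ≤ ε ^ (-z.im * r / ‖z - (x + r * I)‖ ^ 2 / 24) := by
  have hc : ((x : ℂ) - r * I).im < 0 := by
    simp only [sub_im, mul_im, ofReal_re, ofReal_im, I_re, I_im]
    linarith
  have hci : ((x : ℂ) - r * I).im = -r := by
    simp only [sub_im, mul_im, ofReal_re, ofReal_im, I_re, I_im]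
    ring
  have hcc : conj ((x : ℂ) - r * I) = x + r * I := by
    simp
  have h2 := tri hg hb (η := ε ^ (1 / 6 : ℝ)) (Real.rpow_pos_of_pos hε0 _)
    (Real.rpow_le_one hε0.le hε1 (by norm_num)) hc (by
      intro w hw
      rw [hci] at hw
      exact tc hg hb hε0 hε1 hr hp hpH h0 h1 hε (by linarith)) hz
  rw [← Real.rpow_mul hε0.le, hci, hcc] at h2
  refine h2.trans (le_of_eq ?_)
  congr 1
  ring

/-- the half annulus with centre `Y - I`, bound `M` at depth `≥ 1` -/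
theorem hmc {g : ℂ → ℂ} {Y r M e : ℝ} (hr : 0 < r) (he : 0 < e) (heM : e ≤ M)
    (hg : DifferentiableOn ℂ g Hm) (hb : ∀ z : ℂ, 1 ≤ -z.im → ‖g z‖ ≤ M) {p : ℝ → ℂ} {t0 t1 : ℝ}
    (hp : ContinuousOn p (uIcc t0 t1)) (hpH : ∀ s ∈ uIcc t0 t1, 1 < -(p s).im)
    (h0 : ‖p t0 - (Y - I)‖ ≤ Real.exp (-3) * r) (h1 : Real.exp 3 * r ≤ ‖p t1 - (Y - I)‖)
    (hs : ∀ s ∈ uIcc t0 t1, Real.exp (-3) * r ≤ ‖p s - (Y - I)‖ →
      ‖p s - (Y - I)‖ ≤ Real.exp 3 * r → ‖g (p s)‖ ≤ e) {z : ℂ}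
    (hz : ‖z - (Y - (1 + r : ℝ) * I)‖ ≤ r / 10) : ‖g z‖ ≤ M * (e / M) ^ (1 / 6 : ℝ) := by
  have hM : 0 < M := he.trans_le heM
  have hMc : (M : ℂ) ≠ 0 := by exact_mod_cast hM.ne'
  have hgd : DifferentiableOn ℂ (fun u : ℂ => g (u - I) / M) Hm := by
    refine DifferentiableOn.div_const ?_ _
    refine hg.comp (by fun_prop) ?_
    intro u hu
    have hu' : u.im < 0 := hu
    show (u - I).im < 0
    simp only [sub_im, I_im]
    linarith
  have hgb : ∀ u ∈ Hm, ‖(fun u : ℂ => g (u - I) / M) u‖ ≤ 1 := by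
    intro u hu
    have hu' : u.im < 0 := hu
    show ‖g (u - I) / M‖ ≤ 1
    rw [norm_div, norm_real, Real.norm_of_nonneg hM.le, div_le_one hM]
    apply hb
    simp only [sub_im, I_im]
    linarith
  have e1 : ∀ w : ℂ, w + I - Y = w - (Y - I) := fun w => by ring
  have key := tc (g := fun u : ℂ => g (u - I) / M) hgd hgb (ε := e / M) (by positivity)
    ((div_le_one hM).2 heM) (x := Y) hr (p := fun s => p s + I) (t0 := t0) (t1 := t1)
    (hp.add continuousOn_const) (by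
      intro s hs
      have := hpH s hs
      simp only [add_im, I_im]
      linarith) (by
      rw [e1]
      exact h0) (by
      rw [e1]
      exact h1) (by
      intro s hs' h2 h3
      rw [e1] at h2 h3
      show ‖g (p s + I - I) / M‖ ≤ e / M
      rw [add_sub_cancel_right, norm_div, norm_real, Real.norm_of_nonneg hM.le]
      gcongr
      exact hs s hs' h2 h3) (z := z + I) (by
      have e2 : z + I - (Y - r * I) = z - (Y - (1 + r : ℝ) * I) := by
        push_cast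
        ring
      rw [e2]
      exact hz)
  have e3 : ‖(fun u : ℂ => g (u - I) / M) (z + I)‖ = ‖g z‖ / M := by
    show ‖g (z + I - I) / M‖ = ‖g z‖ / M
    rw [add_sub_cancel_right, norm_div, norm_real, Real.norm_of_nonneg hM.le]
  rw [e3, div_le_iff₀ hM] at key
  linarith

/-- the form used in the block HM -/
theorem tc33 {g : ℂ → ℂ} {Y r M e : ℝ} (hr : 1 ≤ r) (he : 0 < e) (heM : e ≤ M)
    (hg : DifferentiableOn ℂ g Hm) (hb : ∀ z : ℂ, 1 ≤ -z.im → ‖g z‖ ≤ M) {a b : ℝ} {p : ℝ → ℂ}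
    (hab : a ≤ b) (hp : ContinuousOn p (Icc a b))
    (hpe : ∀ t ∈ Icc a b, 2 ≤ -(p t).im ∧ ‖g (p t)‖ ≤ e) (h0 : ‖p a - Y‖ ≤ 2 * r)
    (h1 : 2000 * r ≤ ‖p b - Y‖) :
    ‖g (Y - (1 + 64 * r : ℝ) * I)‖ ≤ M * (e / M) ^ (1 / 6 : ℝ) := by
  have hp' : ContinuousOn p (uIcc a b) := by rwa [uIcc_of_le hab]
  have hE : Real.exp 3 ≤ 20.1 := by
    have h4 : Real.exp 3 = (Real.exp 1) ^ 3 := by rw [← Real.exp_nat_mul]; norm_num
    rw [h4]
    have h5 := Real.exp_one_lt_d9
    calc (Real.exp 1) ^ 3 ≤ 2.7183 ^ 3 := by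
          gcongr
          linarith
      _ ≤ 20.1 := by norm_num
  have hE' : 1 / 20.1 ≤ Real.exp (-3) := by
    rw [Real.exp_neg, one_div]
    exact inv_anti₀ (Real.exp_pos _) hE
  refine hmc (Y := Y) (z := Y - (1 + 64 * r : ℝ) * I) (r := 64 * r) (by linarith) he heM hg hb
    hp' ?_ ?_ ?_ ?_ ?_
  · intro s hs
    rw [uIcc_of_le hab] at hs
    linarith [(hpe s hs).1]
  · have h2 : ‖p a - (Y - I)‖ ≤ ‖p a - Y‖ + ‖(I : ℂ)‖ := by
      have : p a - (Y - I) = (p a - Y) + I := by ring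
      rw [this]
      exact norm_add_le _ _
    rw [norm_I] at h2
    have h3 : 1 / 20.1 * (64 * r) ≤ Real.exp (-3) * (64 * r) := by gcongr
    norm_num at h3
    linarith
  · have h2 : ‖p b - Y‖ ≤ ‖p b - (Y - I)‖ + ‖(I : ℂ)‖ := by
      have : p b - Y = (p b - (Y - I)) - I := by ring
      rw [this]
      exact norm_sub_le _ _
    rw [norm_I] at h2
    have h3 : Real.exp 3 * (64 * r) ≤ 20.1 * (64 * r) := by gcongr
    linarith
  · intro s hs _ _
    rw [uIcc_of_le hab] at hs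
    exact (hpe s hs).2
  · rw [sub_self, norm_zero]
    positivity

end Pool.Agent.MP_ae5b4e_an_GD
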